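import Mathlib

set_option autoImplicit false

/-!
# Dense neighbourhoods: blocks
-/

namespace Pool.Agent.K1H33.HY

open Finset

variable {V : Type} [Fintype V] [DecidableEq V] (G : SimpleGraph V) [DecidableRel G.Adj]

/-- number of ordered pairs of adjacent vertices of `N` -/
def AP (N : Finset V) : ℕ := ((N ×ˢ N).filter (fun a => G.Adj a.1 a.2)).card

lemma AP_sum (N : Finset V) : AP G N = ∑ u ∈ N, (G.neighborFinset u ∩ N).card := by
  unfold AP
  rw [Finset.card_filter, Finset.sum_product]
  apply Finset.sum_congr rfl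
  intro u _
  rw [← Finset.card_filter]
  congr 1
  ext w
  simp [and_comm]

/-- the block of `v` -/
noncomputable def W (r : ℝ) (D : ℕ) (v : V) : Finset V :=
  by classical exact univ.filter (fun w => (1 - 32 * r) * D ≤
    ((G.neighborFinset w ∩ G.neighborFinset v).card : ℝ))

/-- typical vertices of the block -/
noncomputable def Typ (r : ℝ) (D : ℕ) (v : V) : Finset V :=
  by classical exact (G.neighborFinset v).filter (fun w => (1 - r) * D ≤
    ((G.neighborFinset w ∩ G.neighborFinset v).card : ℝ))

/-- dense vertices -/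
def Dn (r : ℝ) (D : ℕ) (v : V) : Prop := (1 - r ^ 2) * (D : ℝ) ^ 2 < AP G (G.neighborFinset v)

variable {G}

lemma mem_W {r : ℝ} {D : ℕ} {v w : V} : w ∈ W G r D v ↔ (1 - 32 * r) * D ≤
    ((G.neighborFinset w ∩ G.neighborFinset v).card : ℝ) := by
  classical
  unfold W
  simp

lemma mem_Typ {r : ℝ} {D : ℕ} {v w : V} : w ∈ Typ G r D v ↔ w ∈ G.neighborFinset v ∧
    (1 - r) * D ≤ ((G.neighborFinset w ∩ G.neighborFinset v).card : ℝ) := by
  classical
  unfold Typ
  simp

variable {r : ℝ} {D : ℕ} (hr0 : 0 < r) (hr : 512 * r ≤ 1) (hD0 : 0 < D)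
  (hD : ∀ v, (G.neighborFinset v).card ≤ D)

include hD in
lemma def_sum {v : V} (hv : Dn G r D v) :
    ∑ u ∈ G.neighborFinset v, ((D : ℝ) - ((G.neighborFinset u ∩ G.neighborFinset v).card : ℝ)) ≤
      r ^ 2 * (D : ℝ) ^ 2 := by
  unfold Dn at hv
  rw [AP_sum] at hv
  rw [Finset.sum_sub_distrib, Finset.sum_const, nsmul_eq_mul]
  push_cast at hv
  have h1 : ((G.neighborFinset v).card : ℝ) * D ≤ D * D := by
    apply mul_le_mul_of_nonneg_right _ (by positivity)
    exact_mod_cast hD v
  nlinarith

include hD in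
lemma term_nonneg (u v : V) :
    0 ≤ (D : ℝ) - ((G.neighborFinset u ∩ G.neighborFinset v).card : ℝ) := by
  have h1 : (G.neighborFinset u ∩ G.neighborFinset v).card ≤ D :=
    (Finset.card_le_card Finset.inter_subset_left).trans (hD u)
  have h2 : ((G.neighborFinset u ∩ G.neighborFinset v).card : ℝ) ≤ D := by exact_mod_cast h1
  linarith

include hr0 hD0 hD in
lemma bad_card {v : V} (hv : Dn G r D v) :
    ((G.neighborFinset v \ Typ G r D v).card : ℝ) ≤ r * D := by
  classical
  have h1 := def_sum hD hv
  have hDr : (0 : ℝ) < D := by exact_mod_cast hD0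
  have h2 : ∑ u ∈ G.neighborFinset v \ Typ G r D v, (r * D) ≤
      ∑ u ∈ G.neighborFinset v, ((D : ℝ) -
        ((G.neighborFinset u ∩ G.neighborFinset v).card : ℝ)) := by
    refine le_trans ?_ (Finset.sum_le_sum_of_subset_of_nonneg (Finset.sdiff_subset
      (s := G.neighborFinset v) (t := Typ G r D v)) (fun u _ _ => term_nonneg hD u v))
    apply Finset.sum_le_sum
    intro u hu
    rw [mem_sdiff, mem_Typ, not_and] at hu
    have := hu.2 hu.1
    rw [not_le] at this
    linarith
  rw [Finset.sum_const, nsmul_eq_mul] at h2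
  have h3 := h2.trans h1
  have h4 : ((G.neighborFinset v \ Typ G r D v).card : ℝ) * (r * D) ≤ (r * D) * (r * D) := by
    nlinarith
  exact le_of_mul_le_mul_right h4 (by positivity)

include hD0 hD in
lemma nbr_card {v : V} (hv : Dn G r D v) :
    (1 - r ^ 2) * D ≤ ((G.neighborFinset v).card : ℝ) := by
  have hDr : (0 : ℝ) < D := by exact_mod_cast hD0
  unfold Dn at hv
  rw [AP_sum] at hv
  have h1 : ((∑ u ∈ G.neighborFinset v, (G.neighborFinset u ∩ G.neighborFinset v).card : ℕ) : ℝ) ≤
      ∑ _u ∈ G.neighborFinset v, (D : ℝ) := by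
    push_cast
    apply Finset.sum_le_sum
    intro u _
    have := term_nonneg hD u v
    linarith
  rw [Finset.sum_const, nsmul_eq_mul] at h1
  have h2 : ((1 - r ^ 2) * D) * D ≤ ((G.neighborFinset v).card : ℝ) * D := by nlinarith
  exact le_of_mul_le_mul_right h2 hDr

include hr0 hr hD0 hD in
lemma W_sdiff_N {v : V} (hv : Dn G r D v) :
    ((W G r D v \ G.neighborFinset v).card : ℝ) ≤ 2 * r ^ 2 * D := by
  classical
  have hDr : (0 : ℝ) < D := by exact_mod_cast hD0
  have h1 := def_sum hD hv
  -- double counting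
  have h2 : ∑ w ∈ (univ \ G.neighborFinset v), (G.neighborFinset w ∩ G.neighborFinset v).card =
      ∑ u ∈ G.neighborFinset v, (G.neighborFinset u \ G.neighborFinset v).card := by
    have e1 : ∀ w : V, (G.neighborFinset w ∩ G.neighborFinset v).card =
        ∑ u ∈ G.neighborFinset v, if G.Adj w u then 1 else 0 := by
      intro w
      rw [← Finset.card_filter]
      congr 1
      ext u
      simp [and_comm]
    have e2 : ∀ u : V, (G.neighborFinset u \ G.neighborFinset v).card =
        ∑ w ∈ (univ \ G.neighborFinset v), if G.Adj w u then 1 else 0 := by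
      intro u
      rw [← Finset.card_filter]
      congr 1
      ext w
      simp [and_comm, G.adj_comm]
    simp only [e1, e2]
    rw [Finset.sum_comm]
  have h3 : ((∑ u ∈ G.neighborFinset v, (G.neighborFinset u \ G.neighborFinset v).card : ℕ) : ℝ)
      ≤ r ^ 2 * (D : ℝ) ^ 2 := by
    refine le_trans ?_ h1
    push_cast
    apply Finset.sum_le_sum
    intro u _
    have h4 := Finset.card_sdiff_add_card_inter (G.neighborFinset u) (G.neighborFinset v)
    have h5 : ((G.neighborFinset u \ G.neighborFinset v).card : ℝ) +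
        ((G.neighborFinset u ∩ G.neighborFinset v).card : ℝ) ≤ D := by
      have := hD u
      rw [← h4] at this
      exact_mod_cast this
    linarith
  rw [← h2] at h3
  have h6 : ((W G r D v \ G.neighborFinset v).card : ℝ) * (D / 2) ≤
      ((∑ w ∈ (univ \ G.neighborFinset v),
        (G.neighborFinset w ∩ G.neighborFinset v).card : ℕ) : ℝ) := by
    push_cast
    have h7 : W G r D v \ G.neighborFinset v ⊆ univ \ G.neighborFinset v :=
      Finset.sdiff_subset_sdiff (Finset.subset_univ _) (Finset.Subset.refl _)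
    refine le_trans ?_ (Finset.sum_le_sum_of_subset_of_nonneg h7 (fun _ _ _ => by positivity))
    rw [← nsmul_eq_mul]
    apply Finset.card_nsmul_le_sum
    intro w hw
    rw [mem_sdiff, mem_W] at hw
    refine le_trans ?_ hw.1
    have : 1 / 2 ≤ 1 - 32 * r := by linarith
    nlinarith
  have h8 : ((W G r D v \ G.neighborFinset v).card : ℝ) * (D / 2) ≤ (2 * r ^ 2 * D) * (D / 2) := by
    nlinarith
  exact le_of_mul_le_mul_right h8 (by positivity)

include hr0 in
lemma Typ_sub {v : V} : Typ G r D v ⊆ W G r D v := by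
  intro w hw
  rw [mem_Typ] at hw
  rw [mem_W]
  refine le_trans ?_ hw.2
  have : (1 - 32 * r) ≤ 1 - r := by linarith
  exact mul_le_mul_of_nonneg_right this (by positivity)

include hr0 hD0 hD in
lemma N_sdiff_W {v : V} (hv : Dn G r D v) :
    ((G.neighborFinset v \ W G r D v).card : ℝ) ≤ r * D := by
  refine le_trans ?_ (bad_card hr0 hD0 hD hv)
  have h : (G.neighborFinset v \ W G r D v).card ≤ (G.neighborFinset v \ Typ G r D v).card :=
    Finset.card_le_card (Finset.sdiff_subset_sdiff (Finset.Subset.refl _) (Typ_sub hr0))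
  exact_mod_cast h

include hr0 hr hD0 hD in
lemma W_sdiff_Typ {v : V} (hv : Dn G r D v) :
    ((W G r D v \ Typ G r D v).card : ℝ) ≤ 2 * r * D := by
  have h1 := bad_card hr0 hD0 hD hv
  have h2 := W_sdiff_N hr0 hr hD0 hD hv
  have h3 : W G r D v \ Typ G r D v ⊆ (W G r D v \ G.neighborFinset v) ∪
      (G.neighborFinset v \ Typ G r D v) := by
    intro x hx
    rw [mem_sdiff] at hx
    rw [mem_union, mem_sdiff, mem_sdiff]
    by_cases h : x ∈ G.neighborFinset v
    · right; exact ⟨h, hx.2⟩
    · left; exact ⟨hx.1, h⟩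
  have h4 := (Finset.card_le_card h3).trans (Finset.card_union_le _ _)
  have h5 : ((W G r D v \ Typ G r D v).card : ℝ) ≤
      ((W G r D v \ G.neighborFinset v).card : ℝ) +
      ((G.neighborFinset v \ Typ G r D v).card : ℝ) := by exact_mod_cast h4
  have hDr : (0 : ℝ) < D := by exact_mod_cast hD0
  have h6 : 2 * r ^ 2 ≤ r := by nlinarith
  have h7 : 2 * r ^ 2 * D ≤ r * D := mul_le_mul_of_nonneg_right h6 hDr.le
  linarith

include hr0 hr hD0 hD in
lemma W_card {v : V} (hv : Dn G r D v) :
    ((W G r D v).card : ℝ) ≤ (1 + 2 * r ^ 2) * D := by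
  have h2 := W_sdiff_N hr0 hr hD0 hD hv
  have h3 : W G r D v ⊆ (W G r D v \ G.neighborFinset v) ∪ G.neighborFinset v := by
    intro x hx
    rw [mem_union, mem_sdiff]
    by_cases h : x ∈ G.neighborFinset v
    · right; exact h
    · left; exact ⟨hx, h⟩
  have h4 := (Finset.card_le_card h3).trans (Finset.card_union_le _ _)
  have h5 : ((W G r D v).card : ℝ) ≤
      ((W G r D v \ G.neighborFinset v).card : ℝ) + ((G.neighborFinset v).card : ℝ) := by
    exact_mod_cast h4
  have h6 : ((G.neighborFinset v).card : ℝ) ≤ D := by exact_mod_cast hD v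
  linarith

include hD in
lemma sdiff_card_aux {v w : V} {s : ℝ}
    (h : (1 - s) * D ≤ ((G.neighborFinset w ∩ G.neighborFinset v).card : ℝ)) :
    ((G.neighborFinset w \ G.neighborFinset v).card : ℝ) ≤ s * D := by
  have h4 := Finset.card_sdiff_add_card_inter (G.neighborFinset w) (G.neighborFinset v)
  have h5 : ((G.neighborFinset w \ G.neighborFinset v).card : ℝ) +
      ((G.neighborFinset w ∩ G.neighborFinset v).card : ℝ) ≤ D := by
    have := hD w
    rw [← h4] at this
    exact_mod_cast this
  linarith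

include hr0 hD0 hD in
lemma out_aux {v w : V} (hv : Dn G r D v) {s : ℝ}
    (h : (1 - s) * D ≤ ((G.neighborFinset w ∩ G.neighborFinset v).card : ℝ)) :
    ((G.neighborFinset w \ W G r D v).card : ℝ) ≤ s * D + r * D := by
  have h1 := sdiff_card_aux hD h
  have h2 := N_sdiff_W hr0 hD0 hD hv
  have h3 : G.neighborFinset w \ W G r D v ⊆ (G.neighborFinset w \ G.neighborFinset v) ∪
      (G.neighborFinset v \ W G r D v) := by
    intro x hx
    rw [mem_sdiff] at hx
    rw [mem_union, mem_sdiff, mem_sdiff]
    by_cases h : x ∈ G.neighborFinset v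
    · right; exact ⟨h, hx.2⟩
    · left; exact ⟨hx.1, h⟩
  have h4 := (Finset.card_le_card h3).trans (Finset.card_union_le _ _)
  have h5 : ((G.neighborFinset w \ W G r D v).card : ℝ) ≤
      ((G.neighborFinset w \ G.neighborFinset v).card : ℝ) +
      ((G.neighborFinset v \ W G r D v).card : ℝ) := by exact_mod_cast h4
  linarith

include hr0 hD0 hD in
lemma out_W {v w : V} (hv : Dn G r D v) (hw : w ∈ W G r D v) :
    ((G.neighborFinset w \ W G r D v).card : ℝ) ≤ 48 * r * D := by
  have h1 := out_aux hr0 hD0 hD hv (mem_W.1 hw)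
  have hDr : (0 : ℝ) < D := by exact_mod_cast hD0
  have : 0 ≤ r * D := by positivity
  linarith

include hr0 hD0 hD in
lemma out_Typ {v w : V} (hv : Dn G r D v) (hw : w ∈ Typ G r D v) :
    ((G.neighborFinset w \ W G r D v).card : ℝ) ≤ 2 * r * D := by
  have h1 := out_aux hr0 hD0 hD hv (mem_Typ.1 hw).2
  linarith

/-- inclusion–exclusion inside `N w` -/
lemma triple {v v' w : V} {s s' : ℝ} (hD : ∀ v, (G.neighborFinset v).card ≤ D)
    (h : (1 - s) * D ≤ ((G.neighborFinset w ∩ G.neighborFinset v).card : ℝ))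
    (h' : (1 - s') * D ≤ ((G.neighborFinset w ∩ G.neighborFinset v').card : ℝ)) :
    (1 - s - s') * D ≤ ((G.neighborFinset v ∩ G.neighborFinset v').card : ℝ) := by
  have h1 := Finset.card_union_add_card_inter (G.neighborFinset w ∩ G.neighborFinset v)
    (G.neighborFinset w ∩ G.neighborFinset v')
  have h2 : ((G.neighborFinset w ∩ G.neighborFinset v) ∪
    (G.neighborFinset w ∩ G.neighborFinset v')).card ≤ D := by
    refine (Finset.card_le_card ?_).trans (hD w)
    exact Finset.union_subset Finset.inter_subset_left Finset.inter_subset_left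
  have h3 : ((G.neighborFinset w ∩ G.neighborFinset v) ∩
    (G.neighborFinset w ∩ G.neighborFinset v')).card ≤
      (G.neighborFinset v ∩ G.neighborFinset v').card := by
    apply Finset.card_le_card
    intro x hx
    simp only [mem_inter] at hx ⊢
    exact ⟨hx.1.2, hx.2.2⟩
  have h4 : ((G.neighborFinset w ∩ G.neighborFinset v).card : ℝ) +
      ((G.neighborFinset w ∩ G.neighborFinset v').card : ℝ) ≤
      D + ((G.neighborFinset v ∩ G.neighborFinset v').card : ℝ) := by
    have : (G.neighborFinset w ∩ G.neighborFinset v).card +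
      (G.neighborFinset w ∩ G.neighborFinset v').card ≤
      D + (G.neighborFinset v ∩ G.neighborFinset v').card := by omega
    exact_mod_cast this
  linarith

include hr0 hr hD0 hD in
/-- two dense vertices with nearly the same neighbourhoods -/
lemma dense_close {v v' : V} (hv : Dn G r D v) (hv' : Dn G r D v')
    (h : (1 - 64 * r) * D ≤ ((G.neighborFinset v ∩ G.neighborFinset v').card : ℝ)) :
    v ∈ W G r D v' := by
  classical
  have hDr : (0 : ℝ) < D := by exact_mod_cast hD0
  have h1 := bad_card hr0 hD0 hD hv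
  have h2 := bad_card hr0 hD0 hD hv'
  obtain ⟨w, hw, hw2⟩ : ∃ w ∈ G.neighborFinset v ∩ G.neighborFinset v',
      w ∉ (G.neighborFinset v \ Typ G r D v) ∪ (G.neighborFinset v' \ Typ G r D v') := by
    apply Finset.exists_mem_notMem_of_card_lt_card
    have h3 := Finset.card_union_le (G.neighborFinset v \ Typ G r D v)
      (G.neighborFinset v' \ Typ G r D v')
    have h4 : (((G.neighborFinset v \ Typ G r D v) ∪
      (G.neighborFinset v' \ Typ G r D v')).card : ℝ) ≤
      ((G.neighborFinset v \ Typ G r D v).card : ℝ) +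
      ((G.neighborFinset v' \ Typ G r D v').card : ℝ) := by exact_mod_cast h3
    have h5 : 2 * r < 1 - 64 * r := by linarith
    have h6 : 2 * r * D < (1 - 64 * r) * D := mul_lt_mul_of_pos_right h5 hDr
    have h7 : (((G.neighborFinset v \ Typ G r D v) ∪
      (G.neighborFinset v' \ Typ G r D v')).card : ℝ) <
      ((G.neighborFinset v ∩ G.neighborFinset v').card : ℝ) := by linarith
    exact_mod_cast h7
  rw [mem_inter] at hw
  rw [mem_union, not_or, mem_sdiff, mem_sdiff] at hw2
  have h3 : w ∈ Typ G r D v := by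
    by_contra h; exact hw2.1 ⟨hw.1, h⟩
  have h4 : w ∈ Typ G r D v' := by
    by_contra h; exact hw2.2 ⟨hw.2, h⟩
  have h5 := triple hD (mem_Typ.1 h3).2 (mem_Typ.1 h4).2
  rw [mem_W]
  refine le_trans ?_ h5
  apply mul_le_mul_of_nonneg_right _ hDr.le
  linarith

/-- the family of centres of the blocks -/
structure Fam (G : SimpleGraph V) [DecidableRel G.Adj] (r : ℝ) (D : ℕ) (F : Finset V) : Prop where
  dense : ∀ v ∈ F, Dn G r D v
  disj : ∀ v ∈ F, ∀ v' ∈ F, ∀ x, x ∈ W G r D v → x ∈ W G r D v' → v = v'
  cover : ∀ u, Dn G r D u → ∃ v ∈ F, u ∈ W G r D v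

include hr0 hr hD0 hD in
lemma exists_fam : ∃ F : Finset V, Fam G r D F := by
  classical
  have hDr : (0 : ℝ) < D := by exact_mod_cast hD0
  obtain ⟨P, hP⟩ : ∃ P : Finset (Finset V), P = (univ : Finset (Finset V)).filter (fun F =>
    (∀ v ∈ F, Dn G r D v) ∧ ∀ v ∈ F, ∀ v' ∈ F, v ≠ v' →
      ((G.neighborFinset v ∩ G.neighborFinset v').card : ℝ) < (1 - 64 * r) * D) := ⟨_, rfl⟩
  have hne : P.Nonempty := ⟨∅, by rw [hP, mem_filter]; simp⟩
  obtain ⟨F, hF, hmax⟩ := Finset.exists_max_image P Finset.card hne
  rw [hP, mem_filter] at hF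
  obtain ⟨_, hF1, hF2⟩ := hF
  refine ⟨F, hF1, ?_, ?_⟩
  · intro v hv v' hv' x hx hx'
    by_contra hne
    have h1 := hF2 v hv v' hv' hne
    have h2 := triple hD (mem_W.1 hx) (mem_W.1 hx')
    have h3 : (1 - 32 * r - 32 * r) * (D : ℝ) = (1 - 64 * r) * D := by ring
    rw [h3] at h2
    linarith
  · intro u hu
    by_cases huF : u ∈ F
    · refine ⟨u, huF, ?_⟩
      rw [mem_W, Finset.inter_self]
      refine le_trans ?_ (nbr_card hD0 hD hu)
      apply mul_le_mul_of_nonneg_right _ hDr.le
      nlinarith
    · by_contra hcon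
      push Not at hcon
      have h1 : insert u F ∈ P := by
        rw [hP, mem_filter]
        refine ⟨mem_univ _, ?_, ?_⟩
        · intro v hv
          rw [mem_insert] at hv
          rcases hv with rfl | hv
          · exact hu
          · exact hF1 v hv
        · have key : ∀ v ∈ F, ((G.neighborFinset u ∩ G.neighborFinset v).card : ℝ) <
              (1 - 64 * r) * D := by
            intro v hv
            by_contra h
            rw [not_lt] at h
            exact hcon v hv (dense_close hr0 hr hD0 hD hu (hF1 v hv) h)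
          intro v hv v' hv' hne
          rw [mem_insert] at hv hv'
          rcases hv with rfl | hv <;> rcases hv' with rfl | hv'
          · exact absurd rfl hne
          · exact key v' hv'
          · rw [Finset.inter_comm]; exact key v hv
          · exact hF2 v hv v' hv' hne
      have h2 := hmax _ h1
      rw [Finset.card_insert_of_notMem huF] at h2
      omega

end Pool.Agent.K1H33.HY
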