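import Mathlib
import Pool.Agent.K1H33.HY.Dense

set_option autoImplicit false

/-!
# Merging nonadjacent vertices inside the blocks
-/

namespace Pool.Agent.K1H33.HY

open Finset

variable {V : Type} [Fintype V] [DecidableEq V] {G : SimpleGraph V} [DecidableRel G.Adj]

/-- a merging map: classes of size at most two, inside the blocks, of nonadjacent vertices;
the vertices of a block which are alone in their class form a clique -/
structure Mrg (G : SimpleGraph V) [DecidableRel G.Adj] (r : ℝ) (D : ℕ) (F : Finset V)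
    (π : V → V) : Prop where
  idem : ∀ x, π (π x) = π x
  two : ∀ y, (univ.filter (fun x => π x = y)).card ≤ 2
  indep : ∀ x y, π x = π y → ¬ G.Adj x y
  blk : ∀ x, π x ≠ x → ∃ v ∈ F, x ∈ W G r D v ∧ π x ∈ W G r D v
  clq : ∀ v ∈ F, ∀ x ∈ W G r D v, ∀ y ∈ W G r D v, x ≠ y → (∀ z, π z = π x → z = x) →
    (∀ z, π z = π y → z = y) → G.Adj x y

lemma exists_mrg (r : ℝ) (D : ℕ) (F : Finset V) : ∃ π : V → V, Mrg G r D F π := by
  classical
  obtain ⟨P, hP⟩ : ∃ P : Finset (V → V), P = (univ : Finset (V → V)).filter (fun π =>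
    (∀ x, π (π x) = π x) ∧ (∀ y, (univ.filter (fun x => π x = y)).card ≤ 2) ∧
    (∀ x y, π x = π y → ¬ G.Adj x y) ∧
    (∀ x, π x ≠ x → ∃ v ∈ F, x ∈ W G r D v ∧ π x ∈ W G r D v)) := ⟨_, rfl⟩
  have hne : P.Nonempty := by
    refine ⟨id, ?_⟩
    rw [hP, mem_filter]
    refine ⟨mem_univ _, fun x => rfl, ?_, ?_, ?_⟩
    · intro y
      have : univ.filter (fun x : V => id x = y) = {y} := by
        ext x; simp
      rw [this]; simp
    · intro x y h
      rw [show x = y from h]
      exact G.irrefl
    · intro x h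
      exact absurd rfl h
  obtain ⟨π, hπ, hmin⟩ := Finset.exists_min_image P (fun π => (univ.image π).card) hne
  rw [hP, mem_filter] at hπ
  obtain ⟨_, h1, h2, h3, h4⟩ := hπ
  refine ⟨π, h1, h2, h3, h4, ?_⟩
  intro v hv x hx y hy hxy hx1 hy1
  by_contra hadj
  have hπx : π x = x := hx1 (π x) (h1 x)
  have hπy : π y = y := hy1 (π y) (h1 y)
  obtain ⟨ρ, hρ⟩ : ∃ ρ : V → V, ρ = fun z => if z = y then x else π z := ⟨_, rfl⟩
  have ρy : ρ y = x := by rw [hρ]; simp
  have ρz : ∀ z, z ≠ y → ρ z = π z := by
    intro z hz; rw [hρ]; simp [hz]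
  have hzy : ∀ z, z ≠ y → π z ≠ y := by
    intro z hz h
    exact hz (hy1 z (by rw [h, hπy]))
  have hρP : ρ ∈ P := by
    rw [hP, mem_filter]
    refine ⟨mem_univ _, ?_, ?_, ?_, ?_⟩
    · intro z
      by_cases hz : z = y
      · rw [hz, ρy, ρz x hxy, hπx]
      · rw [ρz z hz, ρz _ (hzy z hz), h1]
    · intro z
      by_cases hz : z = x
      · have : univ.filter (fun a => ρ a = z) ⊆ {x, y} := by
          intro a ha
          rw [mem_filter] at ha
          rw [mem_insert, mem_singleton]
          by_cases hay : a = y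
          · right; exact hay
          · left
            apply hx1
            rw [← ρz a hay, ha.2, hz, hπx]
        exact (Finset.card_le_card this).trans Finset.card_le_two
      · refine le_trans (Finset.card_le_card ?_) (h2 z)
        intro a ha
        rw [mem_filter] at ha ⊢
        refine ⟨mem_univ _, ?_⟩
        have hay : a ≠ y := by
          rintro rfl
          exact hz (ha.2.symm.trans ρy)
        rw [← ρz a hay]
        exact ha.2
    · intro a b hab
      by_cases hay : a = y
      · by_cases hby : b = y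
        · rw [hay, hby]; exact G.irrefl
        · have hbx : b = x := by
            apply hx1
            rw [← ρz b hby, ← hab, hay, ρy, hπx]
          rw [hay, hbx]
          exact fun h => hadj h.symm
      · by_cases hby : b = y
        · have hax : a = x := by
            apply hx1
            rw [← ρz a hay, hab, hby, ρy, hπx]
          rw [hby, hax]
          exact hadj
        · apply h3
          rw [← ρz a hay, ← ρz b hby]
          exact hab
    · intro a ha
      by_cases hay : a = y
      · refine ⟨v, hv, ?_, ?_⟩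
        · rw [hay]; exact hy
        · rw [hay, ρy]; exact hx
      · rw [ρz a hay] at ha ⊢
        exact h4 a ha
  have h5 := hmin ρ hρP
  have h6 : (univ.image ρ) ⊆ (univ.image π).erase y := by
    intro z hz
    rw [mem_image] at hz
    obtain ⟨a, _, ha⟩ := hz
    rw [mem_erase, mem_image]
    by_cases hay : a = y
    · rw [hay, ρy] at ha
      rw [← ha]
      exact ⟨hxy, x, mem_univ _, hπx⟩
    · rw [ρz a hay] at ha
      rw [← ha]
      exact ⟨hzy a hay, a, mem_univ _, rfl⟩
  have h7 : y ∈ univ.image π := mem_image.2 ⟨y, mem_univ _, hπy⟩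
  have h8 := (Finset.card_le_card h6)
  rw [Finset.card_erase_of_mem h7] at h8
  have h9 : 0 < (univ.image π).card := Finset.card_pos.2 ⟨y, h7⟩
  omega

/-- the graph of the merged vertices -/
def GM (G : SimpleGraph V) (π : V → V) : SimpleGraph V where
  Adj x y := x ≠ y ∧ ∃ a b, π a = x ∧ π b = y ∧ G.Adj a b
  symm := ⟨fun _ _ h => ⟨h.1.symm, by
    obtain ⟨a, b, ha, hb, hab⟩ := h.2
    exact ⟨b, a, hb, ha, hab.symm⟩⟩⟩
  loopless := ⟨fun _ h => h.1 rfl⟩

section

variable {r : ℝ} {D : ℕ} {F : Finset V} {π : V → V}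

lemma GM_hom (hM : Mrg G r D F π) {a b : V} (h : G.Adj a b) : (GM G π).Adj (π a) (π b) :=
  ⟨fun h1 => hM.indep a b h1 h, a, b, rfl, rfl, h⟩

lemma blk_map (hF : Fam G r D F) (hM : Mrg G r D F π) {v : V} (hv : v ∈ F) {x : V} :
    π x ∈ W G r D v ↔ x ∈ W G r D v := by
  by_cases h : π x = x
  · rw [h]
  · obtain ⟨v', hv', h1, h2⟩ := hM.blk x h
    constructor
    · intro h3
      rw [hF.disj v hv v' hv' _ h3 h2]; exact h1
    · intro h3
      rw [hF.disj v hv v' hv' _ h3 h1]; exact h2

lemma out_map (hM : Mrg G r D F π) {x : V}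
    (hx : ∀ v ∈ F, π x ∉ W G r D v) : π x = x := by
  by_contra h
  obtain ⟨v, hv, h1, h2⟩ := hM.blk x h
  exact hx v hv h2

/-- the number of classes in a block -/
lemma classes (hF : Fam G r D F) (hM : Mrg G r D F π) {v : V} (hv : v ∈ F) {ω : ℝ}
    (hω : ∀ S : Finset V, (∀ x ∈ S, ∀ y ∈ S, x ≠ y → G.Adj x y) → (S.card : ℝ) ≤ ω) :
    2 * (((W G r D v).image π).card : ℝ) ≤ ((W G r D v).card : ℝ) + ω := by
  classical
  obtain ⟨U, hU⟩ : ∃ U : Finset V, U = (W G r D v).filter (fun x => ∀ z, π z = π x → z = x) :=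
    ⟨_, rfl⟩
  have h1 : (U.card : ℝ) ≤ ω := by
    apply hω
    intro x hx y hy hxy
    rw [hU, mem_filter] at hx hy
    exact hM.clq v hv x hx.1 y hy.1 hxy hx.2 hy.2
  have h2 : (W G r D v).card =
      ∑ y ∈ (W G r D v).image π, ((W G r D v).filter (fun x => π x = y)).card :=
    Finset.card_eq_sum_card_image π _
  have h3 : ∀ y ∈ (W G r D v).image π,
      2 ≤ ((W G r D v).filter (fun x => π x = y)).card + (if y ∈ U then 1 else 0) := by
    intro y hy
    rw [mem_image] at hy
    obtain ⟨x, hx, hxy⟩ := hy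
    have hyy : π y = y := by rw [← hxy]; exact hM.idem x
    have hyW : y ∈ W G r D v := by
      rw [← hxy]; exact (blk_map hF hM hv).2 hx
    by_cases hyU : y ∈ U
    · rw [if_pos hyU]
      have : 0 < ((W G r D v).filter (fun x => π x = y)).card :=
        Finset.card_pos.2 ⟨x, mem_filter.2 ⟨hx, hxy⟩⟩
      omega
    · rw [if_neg hyU]
      rw [hU, mem_filter] at hyU
      push Not at hyU
      obtain ⟨z, hz1, hz2⟩ := hyU hyW
      rw [hyy] at hz1
      have hzW : z ∈ W G r D v := by
        rw [← blk_map hF hM hv, hz1]; exact hyW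
      have h4 : ({z, y} : Finset V) ⊆ (W G r D v).filter (fun x => π x = y) := by
        intro a ha
        rw [mem_insert, mem_singleton] at ha
        rw [mem_filter]
        rcases ha with rfl | rfl
        · exact ⟨hzW, hz1⟩
        · exact ⟨hyW, hyy⟩
      have h5 := Finset.card_le_card h4
      rw [Finset.card_pair hz2] at h5
      omega
  have h4 := Finset.sum_le_sum h3
  rw [Finset.sum_const, smul_eq_mul, Finset.sum_add_distrib, ← h2, ← Finset.card_filter] at h4
  have h5 : (((W G r D v).image π).filter (fun y => y ∈ U)).card ≤ U.card := by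
    apply Finset.card_le_card
    intro y hy
    exact (mem_filter.1 hy).2
  have h6 : ((W G r D v).image π).card * 2 ≤ (W G r D v).card + U.card := by omega
  have h7 : (((W G r D v).image π).card : ℝ) * 2 ≤ (W G r D v).card + U.card := by
    exact_mod_cast h6
  linarith

end

end Pool.Agent.K1H33.HY
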