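import Mathlib
import Pool.Agent.K1H33.HY.Merge

set_option autoImplicit false

/-!
# The merged graph has sparse neighbourhoods
-/

namespace Pool.Agent.K1H33.HY

open Finset

variable {V : Type} [Fintype V] [DecidableEq V] {G : SimpleGraph V} [DecidableRel G.Adj]
variable {r : ℝ} {D : ℕ} {F : Finset V} {π : V → V} [DecidableRel (GM G π).Adj]

/-- the class of `x` -/
def cls (π : V → V) (x : V) : Finset V := univ.filter (fun a => π a = x)

lemma mem_cls {x a : V} : a ∈ cls π x ↔ π a = x := by simp [cls]

/-- neighbours of a class outside a block -/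
lemma nbr_out (hF : Fam G r D F) (hM : Mrg G r D F π) {v : V} (hv : v ∈ F) (x : V) :
    (GM G π).neighborFinset x \ W G r D v ⊆
      ((cls π x).biUnion (fun a => G.neighborFinset a \ W G r D v)).image π := by
  intro c hc
  rw [mem_sdiff, SimpleGraph.mem_neighborFinset] at hc
  obtain ⟨⟨_, a, b, ha, hb, hab⟩, hc2⟩ := hc
  rw [mem_image]
  refine ⟨b, ?_, hb⟩
  rw [mem_biUnion]
  refine ⟨a, mem_cls.2 ha, ?_⟩
  rw [mem_sdiff, SimpleGraph.mem_neighborFinset]
  refine ⟨hab, fun h => hc2 ?_⟩
  rw [← hb, blk_map hF hM hv]
  exact h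

lemma nbr_out_card (hF : Fam G r D F) (hM : Mrg G r D F π) {v : V} (hv : v ∈ F) (x : V) {s : ℝ}
    (hs0 : 0 ≤ s) (hs : ∀ a, π a = x → ((G.neighborFinset a \ W G r D v).card : ℝ) ≤ s) :
    (((GM G π).neighborFinset x \ W G r D v).card : ℝ) ≤ 2 * s := by
  have h1 := (Finset.card_le_card (nbr_out hF hM hv x)).trans (Finset.card_image_le.trans
    Finset.card_biUnion_le)
  have h2 : (((GM G π).neighborFinset x \ W G r D v).card : ℝ) ≤
      ∑ a ∈ cls π x, ((G.neighborFinset a \ W G r D v).card : ℝ) := by exact_mod_cast h1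
  have h3 : ∑ a ∈ cls π x, ((G.neighborFinset a \ W G r D v).card : ℝ) ≤
      ∑ _a ∈ cls π x, s := Finset.sum_le_sum (fun a ha => hs a (mem_cls.1 ha))
  rw [Finset.sum_const, nsmul_eq_mul] at h3
  have h4 : ((cls π x).card : ℝ) ≤ 2 := by exact_mod_cast hM.two x
  have h5 := mul_le_mul_of_nonneg_right h4 hs0
  linarith

section

variable (hr0 : 0 < r) (hr : 512 * r ≤ 1) (hD0 : 0 < D)
  (hD : ∀ v, (G.neighborFinset v).card ≤ D)

include hr0 hD0 hD in
/-- neighbours outside the block, for a vertex of a block -/
lemma out_M (hF : Fam G r D F) (hM : Mrg G r D F π) {v : V} (hv : v ∈ F) {x : V}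
    (hx : x ∈ W G r D v) :
    (((GM G π).neighborFinset x \ W G r D v).card : ℝ) ≤ 96 * r * D := by
  have h := nbr_out_card hF hM hv x (s := 48 * r * D) (by positivity) (by
    intro a ha
    apply out_W hr0 hD0 hD (hF.dense v hv)
    rw [← blk_map hF hM hv, ha]
    exact hx)
  linarith

include hr0 hr hD0 hD in
/-- the degrees of the merged vertices of a block -/
lemma deg_M (hF : Fam G r D F) (hM : Mrg G r D F π)
    (hω : ∀ S : Finset V, (∀ x ∈ S, ∀ y ∈ S, x ≠ y → G.Adj x y) →
      (S.card : ℝ) ≤ (1 - 512 * r) * D) {v : V} (hv : v ∈ F) {x : V}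
    (hx : x ∈ W G r D v) :
    (((GM G π).neighborFinset x).card : ℝ) ≤ (1 - 128 * r) * D := by
  have h1 := out_M hr0 hD0 hD hF hM hv hx
  have h2 := classes hF hM hv hω
  have h3 := W_card hr0 hr hD0 hD (hF.dense v hv)
  have h4 : (GM G π).neighborFinset x ⊆ ((GM G π).neighborFinset x \ W G r D v) ∪
      (W G r D v).image π := by
    intro c hc
    rw [mem_union, mem_sdiff]
    by_cases h : c ∈ W G r D v
    · right
      rw [SimpleGraph.mem_neighborFinset] at hc
      obtain ⟨_, a, b, ha, hb, hab⟩ := hc
      rw [mem_image]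
      refine ⟨b, ?_, hb⟩
      rw [← blk_map hF hM hv, hb]
      exact h
    · left; exact ⟨hc, h⟩
  have h5 := (Finset.card_le_card h4).trans (Finset.card_union_le _ _)
  have h6 : (((GM G π).neighborFinset x).card : ℝ) ≤
      (((GM G π).neighborFinset x \ W G r D v).card : ℝ) + (((W G r D v).image π).card : ℝ) := by
    exact_mod_cast h5
  have hDr : (0 : ℝ) < D := by exact_mod_cast hD0
  have h7 : r ^ 2 * D ≤ r * D := by
    apply mul_le_mul_of_nonneg_right _ hDr.le
    nlinarith
  have h8 : 0 ≤ r * D := by positivity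
  nlinarith

/-- outside the blocks -/
lemma nbr_free (hM : Mrg G r D F π) {x : V} (hx : ∀ v ∈ F, x ∉ W G r D v) :
    (GM G π).neighborFinset x = (G.neighborFinset x).image π := by
  have hxx : π x = x := by
    by_contra h
    obtain ⟨v, hv, h1, h2⟩ := hM.blk x h
    exact hx v hv h1
  have h0 : ∀ a, π a = x → a = x := by
    intro a ha
    have := out_map hM (x := a) (by rw [ha]; exact hx)
    rw [← this, ha]
  ext c
  rw [SimpleGraph.mem_neighborFinset, mem_image]
  constructor
  · rintro ⟨_, a, b, ha, hb, hab⟩
    refine ⟨b, ?_, hb⟩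
    rw [SimpleGraph.mem_neighborFinset, ← h0 a ha]
    exact hab
  · rintro ⟨b, hb, hbc⟩
    rw [SimpleGraph.mem_neighborFinset] at hb
    have := GM_hom hM hb
    rw [hxx, hbc] at this
    exact this

include hr0 hr hD0 hD in
lemma card_M (hF : Fam G r D F) (hM : Mrg G r D F π)
    (hω : ∀ S : Finset V, (∀ x ∈ S, ∀ y ∈ S, x ≠ y → G.Adj x y) →
      (S.card : ℝ) ≤ (1 - 512 * r) * D) (x : V) :
    ((GM G π).neighborFinset x).card ≤ D := by
  by_cases hx : ∀ v ∈ F, x ∉ W G r D v
  · rw [nbr_free hM hx]
    exact Finset.card_image_le.trans (hD x)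
  · push Not at hx
    obtain ⟨v, hv, hxv⟩ := hx
    have h1 := deg_M hr0 hr hD0 hD hF hM hω hv hxv
    have hDr : (0 : ℝ) < D := by exact_mod_cast hD0
    have h2 : (((GM G π).neighborFinset x).card : ℝ) ≤ D := by
      have : 0 ≤ r * D := by positivity
      linarith
    exact_mod_cast h2

/-- summing the codegrees -/
lemma AP_bound {H : SimpleGraph V} [DecidableRel H.Adj] (N A : Finset V) (hA : A ⊆ N)
    (hN : (N.card : ℝ) ≤ D) {α θ : ℝ} (hθ : 0 ≤ θ) (hDN : ∀ a ∈ N,
      ((H.neighborFinset a ∩ N).card : ℝ) ≤ D)
    (hA1 : ∀ a ∈ A, ((H.neighborFinset a ∩ N).card : ℝ) ≤ (1 - θ) * D)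
    (hA2 : α * D ≤ A.card) : (AP H N : ℝ) ≤ (1 - α * θ) * (D : ℝ) ^ 2 := by
  classical
  rw [AP_sum]
  push_cast
  have h1 : ∑ a ∈ N, ((H.neighborFinset a ∩ N).card : ℝ) ≤
      ∑ a ∈ N, ((D : ℝ) - if a ∈ A then θ * D else 0) := by
    apply Finset.sum_le_sum
    intro a ha
    split_ifs with h
    · have := hA1 a h; linarith
    · have := hDN a ha; linarith
  refine h1.trans ?_
  rw [Finset.sum_sub_distrib, Finset.sum_const, nsmul_eq_mul, ← Finset.sum_filter,
    Finset.sum_const, nsmul_eq_mul]
  have h2 : N.filter (fun a => a ∈ A) = A := by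
    ext a
    rw [mem_filter]
    exact ⟨fun h => h.2, fun h => ⟨hA h, h⟩⟩
  rw [h2]
  have hD' : (0 : ℝ) ≤ D := by positivity
  have h3 : (N.card : ℝ) * D ≤ D * D := mul_le_mul_of_nonneg_right hN hD'
  have h4 : α * D * (θ * D) ≤ A.card * (θ * D) :=
    mul_le_mul_of_nonneg_right hA2 (by positivity)
  nlinarith

/-- classes of size at most two -/
lemma half_image (hM : Mrg G r D F π) (N : Finset V) : N.card ≤ 2 * (N.image π).card := by
  rw [Finset.card_eq_sum_card_image π N, mul_comm, ← smul_eq_mul]
  apply Finset.sum_le_card_nsmul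
  intro y _
  refine le_trans (Finset.card_le_card ?_) (hM.two y)
  intro x hx
  rw [mem_filter] at hx ⊢
  exact ⟨mem_univ _, hx.2⟩

include hr0 hr hD0 hD in
/-- the merged graph has sparse neighbourhoods -/
theorem AP_M (hF : Fam G r D F) (hM : Mrg G r D F π)
    (hω : ∀ S : Finset V, (∀ x ∈ S, ∀ y ∈ S, x ≠ y → G.Adj x y) →
      (S.card : ℝ) ≤ (1 - 512 * r) * D) (x : V) :
    (AP (GM G π) ((GM G π).neighborFinset x) : ℝ) ≤ (1 - r ^ 2 / 16) * (D : ℝ) ^ 2 := by
  classical
  have hDr : (0 : ℝ) < D := by exact_mod_cast hD0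
  have hr2 : r ^ 2 ≤ r / 512 := by nlinarith
  have hDD : (0 : ℝ) < (D : ℝ) ^ 2 := by positivity
  have hcd : ∀ a N, ((((GM G π).neighborFinset a) ∩ N).card : ℝ) ≤ D := by
    intro a N
    have h1 := (Finset.card_le_card (Finset.inter_subset_left
      (s₁ := (GM G π).neighborFinset a) (s₂ := N))).trans (card_M hr0 hr hD0 hD hF hM hω a)
    exact_mod_cast h1
  have hcN : (((GM G π).neighborFinset x).card : ℝ) ≤ D := by
    exact_mod_cast card_M hr0 hr hD0 hD hF hM hω x
  by_cases hx : ∀ v ∈ F, x ∉ W G r D v
  swap
  · push Not at hx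
    obtain ⟨v, hv, hxv⟩ := hx
    have h1 := deg_M hr0 hr hD0 hD hF hM hω hv hxv
    have h2 : (AP (GM G π) ((GM G π).neighborFinset x) : ℝ) ≤
        (((GM G π).neighborFinset x).card : ℝ) * D := by
      rw [AP_sum]
      push_cast
      rw [← nsmul_eq_mul]
      apply Finset.sum_le_card_nsmul
      intro a _
      exact hcd a _
    refine h2.trans ?_
    have h3 := mul_le_mul_of_nonneg_right h1 hDr.le
    have h4 : (1 - 128 * r) * D * D ≤ (1 - r ^ 2 / 16) * (D : ℝ) ^ 2 := by
      have : (1 - 128 * r) ≤ (1 - r ^ 2 / 16) := by linarith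
      have := mul_le_mul_of_nonneg_right this hDD.le
      linarith
    linarith
  -- outside the blocks
  have hN := nbr_free hM hx
  have hnd : (AP G (G.neighborFinset x) : ℝ) ≤ (1 - r ^ 2) * (D : ℝ) ^ 2 := by
    by_contra h
    rw [not_le] at h
    obtain ⟨v, hv, hxv⟩ := hF.cover x h
    exact hx v hv hxv
  by_cases hc1 : ∃ v ∈ F, D / 8 ≤ ((G.neighborFinset x ∩ W G r D v).card : ℝ)
  · -- many neighbours in a block
    obtain ⟨v, hv, hxv⟩ := hc1
    have hdv := hF.dense v hv
    have hup : ((G.neighborFinset x ∩ W G r D v).card : ℝ) ≤ (1 - 31 * r) * D := by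
      have h1 : ((G.neighborFinset x ∩ G.neighborFinset v).card : ℝ) < (1 - 32 * r) * D := by
        have := hx v hv
        rw [mem_W, not_le] at this
        exact this
      have h2 := W_sdiff_N hr0 hr hD0 hD hdv
      have h3 : G.neighborFinset x ∩ W G r D v ⊆ (G.neighborFinset x ∩ G.neighborFinset v) ∪
          (W G r D v \ G.neighborFinset v) := by
        intro y hy
        rw [mem_inter] at hy
        rw [mem_union, mem_inter, mem_sdiff]
        by_cases h : y ∈ G.neighborFinset v
        · left; exact ⟨hy.1, h⟩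
        · right; exact ⟨hy.2, h⟩
      have h4 := (Finset.card_le_card h3).trans (Finset.card_union_le _ _)
      have h5 : ((G.neighborFinset x ∩ W G r D v).card : ℝ) ≤
          ((G.neighborFinset x ∩ G.neighborFinset v).card : ℝ) +
          ((W G r D v \ G.neighborFinset v).card : ℝ) := by exact_mod_cast h4
      have h6 : 2 * r ^ 2 * D ≤ r * D := by
        apply mul_le_mul_of_nonneg_right _ hDr.le
        linarith
      linarith
    obtain ⟨A0, hA0⟩ : ∃ A0, A0 = (G.neighborFinset x ∩ W G r D v).image π := ⟨_, rfl⟩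
    obtain ⟨T, hT⟩ : ∃ T, T = (W G r D v \ Typ G r D v).image π := ⟨_, rfl⟩
    have hA0N : A0 ⊆ (GM G π).neighborFinset x := by
      rw [hN, hA0]
      exact Finset.image_subset_image Finset.inter_subset_left
    have hA0W : (GM G π).neighborFinset x ∩ W G r D v ⊆ A0 := by
      intro a ha
      rw [mem_inter, hN, mem_image] at ha
      obtain ⟨⟨b, hb, hba⟩, ha2⟩ := ha
      rw [hA0, mem_image]
      refine ⟨b, mem_inter.2 ⟨hb, ?_⟩, hba⟩
      rw [← blk_map hF hM hv, hba]
      exact ha2
    have hA0c : (A0.card : ℝ) ≤ (1 - 31 * r) * D := by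
      refine le_trans ?_ hup
      rw [hA0]
      exact_mod_cast Finset.card_image_le
    have hin : (((GM G π).neighborFinset x ∩ W G r D v).card : ℝ) ≤ (1 - 31 * r) * D :=
      le_trans (by exact_mod_cast Finset.card_le_card hA0W) hA0c
    have hTc : (T.card : ℝ) ≤ 2 * r * D := by
      refine le_trans ?_ (W_sdiff_Typ hr0 hr hD0 hD hdv)
      rw [hT]
      exact_mod_cast Finset.card_image_le
    have hA0l : (D : ℝ) / 16 ≤ A0.card := by
      have h1 := half_image hM (G.neighborFinset x ∩ W G r D v)
      rw [← hA0] at h1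
      have h2 : ((G.neighborFinset x ∩ W G r D v).card : ℝ) ≤ 2 * (A0.card : ℝ) := by
        exact_mod_cast h1
      linarith
    have hA1 : (1 / 32 : ℝ) * D ≤ ((A0 \ T).card : ℝ) := by
      have h1 : A0.card ≤ (A0 \ T).card + T.card := by
        have := Finset.card_le_card_sdiff_add_card (s := A0) (t := T)
        exact this
      have h2 : (A0.card : ℝ) ≤ ((A0 \ T).card : ℝ) + T.card := by exact_mod_cast h1
      have h3 : 2 * r * D ≤ 1 / 32 * D := by
        apply mul_le_mul_of_nonneg_right _ hDr.le
        linarith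
      linarith
    have h := AP_bound (H := GM G π) (D := D) ((GM G π).neighborFinset x) (A0 \ T)
      (Finset.sdiff_subset.trans hA0N) hcN (α := 1 / 32) (θ := 27 * r) (by positivity)
      (fun a _ => hcd a _) (by
        intro a ha
        rw [mem_sdiff] at ha
        have haW : a ∈ W G r D v := by
          have h1 := ha.1
          rw [hA0, mem_image] at h1
          obtain ⟨b, hb, hba⟩ := h1
          rw [← hba, blk_map hF hM hv]
          exact (mem_inter.1 hb).2
        have h1 : (((GM G π).neighborFinset a \ W G r D v).card : ℝ) ≤ 2 * (2 * r * D) := by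
          apply nbr_out_card hF hM hv a (by positivity)
          intro b hb
          apply out_Typ hr0 hD0 hD hdv
          by_contra hbT
          apply ha.2
          rw [hT, mem_image]
          refine ⟨b, mem_sdiff.2 ⟨?_, hbT⟩, hb⟩
          rw [← blk_map hF hM hv, hb]
          exact haW
        have h2 : (GM G π).neighborFinset a ∩ (GM G π).neighborFinset x ⊆
            ((GM G π).neighborFinset a \ W G r D v) ∪
            ((GM G π).neighborFinset x ∩ W G r D v) := by
          intro b hb
          rw [mem_inter] at hb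
          rw [mem_union, mem_sdiff, mem_inter]
          by_cases h : b ∈ W G r D v
          · right; exact ⟨hb.2, h⟩
          · left; exact ⟨hb.1, h⟩
        have h3 := (Finset.card_le_card h2).trans (Finset.card_union_le _ _)
        have h4 : (((GM G π).neighborFinset a ∩ (GM G π).neighborFinset x).card : ℝ) ≤
            (((GM G π).neighborFinset a \ W G r D v).card : ℝ) +
            (((GM G π).neighborFinset x ∩ W G r D v).card : ℝ) := by exact_mod_cast h3
        linarith) hA1
    refine h.trans ?_
    apply mul_le_mul_of_nonneg_right _ hDD.le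
    linarith
  · push Not at hc1
    obtain ⟨B, hB⟩ : ∃ B : Finset V, B = (G.neighborFinset x).filter
      (fun y => ∃ v ∈ F, y ∈ W G r D v) := ⟨_, rfl⟩
    by_cases hc2 : r ^ 2 / 4 * D ≤ (B.card : ℝ)
    · -- many neighbours in small pieces of blocks
      have hBN : B.image π ⊆ (GM G π).neighborFinset x := by
        rw [hN, hB]
        exact Finset.image_subset_image (Finset.filter_subset _ _)
      have hBc : r ^ 2 / 8 * D ≤ ((B.image π).card : ℝ) := by
        have h2 : (B.card : ℝ) ≤ 2 * ((B.image π).card : ℝ) := by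
          exact_mod_cast half_image hM B
        linarith
      have h := AP_bound (H := GM G π) (D := D) ((GM G π).neighborFinset x) (B.image π)
        hBN hcN (α := r ^ 2 / 8) (θ := 1 / 2) (by positivity)
        (fun a _ => hcd a _) (by
          intro a ha
          rw [mem_image] at ha
          obtain ⟨b, hb, hba⟩ := ha
          rw [hB, mem_filter] at hb
          obtain ⟨_, v, hv, hbv⟩ := hb
          have haW : a ∈ W G r D v := by rw [← hba, blk_map hF hM hv]; exact hbv
          have h1 := out_M hr0 hD0 hD hF hM hv haW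
          have h2 : (GM G π).neighborFinset a ∩ (GM G π).neighborFinset x ⊆
              ((GM G π).neighborFinset a \ W G r D v) ∪
              ((G.neighborFinset x ∩ W G r D v).image π) := by
            intro b hb
            rw [mem_inter] at hb
            rw [mem_union, mem_sdiff, mem_image]
            by_cases h : b ∈ W G r D v
            · right
              have h3 := hb.2
              rw [hN, mem_image] at h3
              obtain ⟨c, hc, hcb⟩ := h3
              refine ⟨c, mem_inter.2 ⟨hc, ?_⟩, hcb⟩
              rw [← blk_map hF hM hv, hcb]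
              exact h
            · left; exact ⟨hb.1, h⟩
          have h3 := (Finset.card_le_card h2).trans ((Finset.card_union_le _ _).trans
            (Nat.add_le_add_left Finset.card_image_le _))
          have h4 : (((GM G π).neighborFinset a ∩ (GM G π).neighborFinset x).card : ℝ) ≤
              (((GM G π).neighborFinset a \ W G r D v).card : ℝ) +
              ((G.neighborFinset x ∩ W G r D v).card : ℝ) := by exact_mod_cast h3
          have h5 := hc1 v hv
          have h6 : 96 * r * D ≤ 3 / 16 * D := by
            apply mul_le_mul_of_nonneg_right _ hDr.le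
            linarith
          linarith) hBc
      refine h.trans ?_
      apply mul_le_mul_of_nonneg_right _ hDD.le
      linarith
    · -- few neighbours in blocks
      rw [not_le] at hc2
      have hsub : ((((GM G π).neighborFinset x) ×ˢ ((GM G π).neighborFinset x)).filter
          (fun a => (GM G π).Adj a.1 a.2)) ⊆
          (((G.neighborFinset x) ×ˢ (G.neighborFinset x)).filter (fun a => G.Adj a.1 a.2)) ∪
          ((B.image π) ×ˢ ((GM G π).neighborFinset x) ∪
            ((GM G π).neighborFinset x) ×ˢ (B.image π)) := by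
        intro e he
        rw [mem_filter, mem_product] at he
        obtain ⟨⟨he1, he2⟩, he3⟩ := he
        rw [mem_union, mem_union, mem_filter, mem_product, mem_product, mem_product]
        have key : ∀ a ∈ (GM G π).neighborFinset x, a ∉ B.image π →
            a ∈ G.neighborFinset x ∧ ∀ b, π b = a → b = a := by
          intro a ha haB
          rw [hN, mem_image] at ha
          obtain ⟨b, hb, hba⟩ := ha
          have hno : ∀ v ∈ F, a ∉ W G r D v := by
            intro v hv hav
            apply haB
            rw [mem_image]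
            refine ⟨b, ?_, hba⟩
            rw [hB, mem_filter]
            refine ⟨hb, v, hv, ?_⟩
            rw [← blk_map hF hM hv, hba]
            exact hav
          have h0 : ∀ c, π c = a → c = a := by
            intro c hc
            have := out_map hM (x := c) (by rw [hc]; exact hno)
            rw [← this, hc]
          exact ⟨by rw [← h0 b hba]; exact hb, h0⟩
        by_cases h1 : e.1 ∈ B.image π
        · right; left; exact ⟨h1, he2⟩
        · by_cases h2 : e.2 ∈ B.image π
          · right; right; exact ⟨he1, h2⟩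
          · left
            obtain ⟨k1, k2⟩ := key _ he1 h1
            obtain ⟨k3, k4⟩ := key _ he2 h2
            refine ⟨⟨k1, k3⟩, ?_⟩
            obtain ⟨_, a, b, ha, hb, hab⟩ := he3
            rw [← k2 a ha, ← k4 b hb]
            exact hab
      have h1 := (Finset.card_le_card hsub).trans ((Finset.card_union_le _ _).trans
        (Nat.add_le_add_left (Finset.card_union_le _ _) _))
      rw [Finset.card_product, Finset.card_product] at h1
      have h2 : (AP (GM G π) ((GM G π).neighborFinset x) : ℝ) ≤
          (AP G (G.neighborFinset x) : ℝ) +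
          (((B.image π).card : ℝ) * (((GM G π).neighborFinset x).card : ℝ) +
          (((GM G π).neighborFinset x).card : ℝ) * ((B.image π).card : ℝ)) := by
        unfold AP
        exact_mod_cast h1
      have h3 : ((B.image π).card : ℝ) ≤ r ^ 2 / 4 * D := by
        refine le_trans ?_ hc2.le
        exact_mod_cast Finset.card_image_le
      have h4 : ((B.image π).card : ℝ) * (((GM G π).neighborFinset x).card : ℝ) ≤
          r ^ 2 / 4 * D * D := mul_le_mul h3 hcN (by positivity) (by positivity)
      nlinarith

end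

end Pool.Agent.K1H33.HY
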