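import Mathlib
import Pool.Agent.TH104.LS.D

set_option autoImplicit false

/-!
# Types for a graph mapped to a sparse one with classes of size at most two
-/

namespace Pool.Agent.K1H33.HY

open Finset Pool.Agent.Helper635.LLL Pool.Agent.H238R2.HY Pool.Agent.TH104.LS

/-- splitting a set into two parts on which the map is injective -/
lemma split2 {V : Type} [Fintype V] [DecidableEq V] (π : V → V)
    (htwo : ∀ y, (univ.filter (fun x => π x = y)).card ≤ 2) (N : Finset V) :
    ∃ A ⊆ N, Set.InjOn π (A : Set V) ∧ Set.InjOn π ((N \ A : Finset V) : Set V) := by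
  classical
  obtain ⟨A, hA, hmax⟩ := Finset.exists_max_image
    (N.powerset.filter (fun A : Finset V => Set.InjOn π (A : Set V))) Finset.card
    ⟨∅, by rw [mem_filter]; simp⟩
  rw [mem_filter, mem_powerset] at hA
  refine ⟨A, hA.1, hA.2, ?_⟩
  intro x hx y hy hxy
  rw [mem_coe, mem_sdiff] at hx hy
  by_contra hne
  have h1 : ∃ z ∈ A, π z = π x := by
    by_contra hcon
    push Not at hcon
    have h2 : insert x A ∈ N.powerset.filter (fun A : Finset V => Set.InjOn π (A : Set V)) := by
      rw [mem_filter, mem_powerset]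
      refine ⟨Finset.insert_subset hx.1 hA.1, ?_⟩
      rw [Finset.coe_insert, Set.injOn_insert (by exact_mod_cast hx.2)]
      refine ⟨hA.2, ?_⟩
      rintro ⟨z, hz, hzx⟩
      exact hcon z (by exact_mod_cast hz) hzx
    have h3 := hmax _ h2
    rw [Finset.card_insert_of_notMem hx.2] at h3
    omega
  obtain ⟨z, hz, hzx⟩ := h1
  have hzx' : z ≠ x := by rintro rfl; exact hx.2 hz
  have hzy' : z ≠ y := by rintro rfl; exact hy.2 hz
  have h2 : ({z, x, y} : Finset V) ⊆ univ.filter (fun a => π a = π x) := by
    intro a ha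
    rw [mem_insert, mem_insert, mem_singleton] at ha
    rw [mem_filter]
    rcases ha with rfl | rfl | rfl
    · exact ⟨mem_univ _, hzx⟩
    · exact ⟨mem_univ _, rfl⟩
    · exact ⟨mem_univ _, hxy.symm⟩
  have h3 := Finset.card_le_card h2
  rw [Finset.card_insert_of_notMem (by simp [hzx', hzy']), Finset.card_pair hne] at h3
  have := htwo (π x)
  omega

lemma count_image {V X : Type} [DecidableEq V] [DecidableEq X] (π : V → V) (A : Finset V)
    (hA : Set.InjOn π (A : Set V)) (f : V → X) (y : X) :
    (A.filter (fun u => f (π u) = y)).card = ((A.image π).filter (fun u => f u = y)).card := by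
  rw [← Finset.card_image_of_injOn (s := A.filter (fun u => f (π u) = y)) (f := π)
    (hA.mono (by intro a ha; rw [mem_coe, mem_filter] at ha; exact ha.1))]
  congr 1
  ext b
  rw [mem_image, mem_filter, mem_image]
  constructor
  · rintro ⟨a, ha, hab⟩
    rw [mem_filter] at ha
    exact ⟨⟨a, ha.1, hab⟩, by rw [← hab]; exact ha.2⟩
  · rintro ⟨⟨a, ha, hab⟩, hb⟩
    exact ⟨a, mem_filter.2 ⟨ha, by rw [hab]; exact hb⟩, hab⟩

/-- Chernoff for tied first coordinates -/
lemma tail_tied {V : Type} [Fintype V] [DecidableEq V] (π : V → V)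
    (htwo : ∀ y, (univ.filter (fun x => π x = y)).card ≤ 2) (K Q D : ℕ) (hK : 1 ≤ K)
    (N : Finset V) (hN : N.card ≤ D) (y : Fin K) (x : ℝ) (hx : 0 ≤ x) (hx1 : x ≤ 1)
    (hxD : 6 ≤ x * D) (w : ℕ) (hw : (1 + x) * D / K ≤ ((w + 1 : ℕ) : ℝ)) :
    ((univ.filter (fun s : V → Fin K × Fin Q =>
      w + 1 ≤ (N.filter (fun u => (s (π u)).1 = y)).card)).card : ℝ) ≤
      2 * Real.exp (-(x ^ 3 * D / (384 * K))) * Fintype.card (V → Fin K × Fin Q) := by
  classical
  have hKr : (0 : ℝ) < K := by exact_mod_cast hK
  obtain ⟨A, hAN, hA1, hA2⟩ := split2 π htwo N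
  obtain ⟨B, hB⟩ : ∃ B, B = N \ A := ⟨_, rfl⟩
  rw [← hB] at hA2
  obtain ⟨c, hc⟩ : ∃ c : ℕ, c = ⌈x * D / 8⌉₊ := ⟨_, rfl⟩
  have hc1 : x * D / 8 ≤ c := by rw [hc]; exact Nat.le_ceil _
  have hc2 : (c : ℝ) < x * D / 8 + 1 := by rw [hc]; exact Nat.ceil_lt_add_one (by positivity)
  have hAB : A.card + B.card ≤ D := by
    rw [hB, add_comm, Finset.card_sdiff_add_card_eq_card hAN]; exact hN
  obtain ⟨m₁, hm₁⟩ : ∃ m : ℕ, m = ⌈(1 + x / 4) * ((A.card + c : ℕ) : ℝ) / K⌉₊ := ⟨_, rfl⟩
  obtain ⟨m₂, hm₂⟩ : ∃ m : ℕ, m = ⌈(1 + x / 4) * ((B.card + c : ℕ) : ℝ) / K⌉₊ := ⟨_, rfl⟩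
  have e1 : (1 + x / 4) * ((A.card + c : ℕ) : ℝ) / K ≤ m₁ := by rw [hm₁]; exact Nat.le_ceil _
  have e2 : (1 + x / 4) * ((B.card + c : ℕ) : ℝ) / K ≤ m₂ := by rw [hm₂]; exact Nat.le_ceil _
  have f1 : (m₁ : ℝ) < (1 + x / 4) * ((A.card + c : ℕ) : ℝ) / K + 1 := by
    rw [hm₁]; exact Nat.ceil_lt_add_one (by positivity)
  have f2 : (m₂ : ℝ) < (1 + x / 4) * ((B.card + c : ℕ) : ℝ) / K + 1 := by
    rw [hm₂]; exact Nat.ceil_lt_add_one (by positivity)
  have hm : m₁ + m₂ ≤ w + 2 := by
    have h1 : (1 + x / 4) * ((A.card + c : ℕ) : ℝ) / K + (1 + x / 4) * ((B.card + c : ℕ) : ℝ) / K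
        ≤ (1 + x) * D / K := by
      rw [← add_div]
      apply div_le_div_of_nonneg_right _ hKr.le
      have h2 : ((A.card : ℝ) + B.card) ≤ D := by exact_mod_cast hAB
      push_cast
      have h3 : (1 + x / 4) * ((A.card : ℝ) + c) + (1 + x / 4) * ((B.card : ℝ) + c) =
          (1 + x / 4) * (((A.card : ℝ) + B.card) + 2 * c) := by ring
      rw [h3]
      have h4 : (1 + x / 4) * (((A.card : ℝ) + B.card) + 2 * c) ≤
          (1 + x / 4) * (D + 2 * (x * D / 8 + 1)) :=
        mul_le_mul_of_nonneg_left (by linarith) (by linarith)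
      refine h4.trans ?_
      have h5 : x * (x * D) ≤ 1 * (x * D) := mul_le_mul_of_nonneg_right hx1 (by linarith)
      nlinarith
    have h2 : ((m₁ + m₂ : ℕ) : ℝ) < ((w + 3 : ℕ) : ℝ) := by
      push_cast at hw ⊢
      linarith
    have h3 : m₁ + m₂ < w + 3 := by exact_mod_cast h2
    omega
  have hx4 : x / 4 ≤ 1 := by linarith
  have t1 := tail2 K Q (A.card + c) hK (A.image π)
    (Finset.card_image_le.trans (Nat.le_add_right _ _)) y (x / 4) (by positivity) hx4 m₁ e1
  have t2 := tail2 K Q (B.card + c) hK (B.image π)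
    (Finset.card_image_le.trans (Nat.le_add_right _ _)) y (x / 4) (by positivity) hx4 m₂ e2
  have hexp : ∀ n : ℕ, Real.exp (-((x / 4) ^ 2 * ((n + c : ℕ) : ℝ) / (3 * K))) ≤
      Real.exp (-(x ^ 3 * D / (384 * K))) := by
    intro n
    apply Real.exp_le_exp.2
    have h1 : x ^ 3 * D / (384 * K) = (x / 4) ^ 2 * (x * D / 8) / (3 * K) := by
      field_simp; ring
    rw [h1]
    have h2 : (x * D / 8) ≤ ((n + c : ℕ) : ℝ) := by
      push_cast
      have : (0 : ℝ) ≤ n := by positivity
      linarith
    have h3 : (x / 4) ^ 2 * (x * D / 8) / (3 * K) ≤ (x / 4) ^ 2 * ((n + c : ℕ) : ℝ) / (3 * K) := by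
      gcongr
    linarith
  have hsub : univ.filter (fun s : V → Fin K × Fin Q =>
      w + 1 ≤ (N.filter (fun u => (s (π u)).1 = y)).card) ⊆
      univ.filter (fun s : V → Fin K × Fin Q =>
        m₁ ≤ ((A.image π).filter (fun u => (s u).1 = y)).card) ∪
      univ.filter (fun s : V → Fin K × Fin Q =>
        m₂ ≤ ((B.image π).filter (fun u => (s u).1 = y)).card) := by
    intro s hs
    rw [mem_filter] at hs
    rw [mem_union, mem_filter, mem_filter]
    have h1 : N.filter (fun u => (s (π u)).1 = y) ⊆
        A.filter (fun u => (s (π u)).1 = y) ∪ B.filter (fun u => (s (π u)).1 = y) := by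
      intro u hu
      rw [mem_filter] at hu
      rw [mem_union, mem_filter, mem_filter, hB, mem_sdiff]
      by_cases h : u ∈ A
      · left; exact ⟨h, hu.2⟩
      · right; exact ⟨⟨hu.1, h⟩, hu.2⟩
    have h2 := (Finset.card_le_card h1).trans (Finset.card_union_le _ _)
    have h3 := count_image π A hA1 (fun u => (s u).1) y
    have h4 := count_image π B hA2 (fun u => (s u).1) y
    rw [h3, h4] at h2
    by_contra hcon
    rw [not_or] at hcon
    have h5 : ¬ m₁ ≤ ((A.image π).filter (fun u => (s u).1 = y)).card :=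
      fun h => hcon.1 ⟨mem_univ _, h⟩
    have h6 : ¬ m₂ ≤ ((B.image π).filter (fun u => (s u).1 = y)).card :=
      fun h => hcon.2 ⟨mem_univ _, h⟩
    have h7 := hs.2
    omega
  have h1 := (Finset.card_le_card hsub).trans (Finset.card_union_le _ _)
  have h2 : ((univ.filter (fun s : V → Fin K × Fin Q =>
      w + 1 ≤ (N.filter (fun u => (s (π u)).1 = y)).card)).card : ℝ) ≤
      ((univ.filter (fun s : V → Fin K × Fin Q =>
        m₁ ≤ ((A.image π).filter (fun u => (s u).1 = y)).card)).card : ℝ) +
      ((univ.filter (fun s : V → Fin K × Fin Q =>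
        m₂ ≤ ((B.image π).filter (fun u => (s u).1 = y)).card)).card : ℝ) := by
    exact_mod_cast h1
  have hF : (0 : ℝ) ≤ Fintype.card (V → Fin K × Fin Q) := by positivity
  have g1 := mul_le_mul_of_nonneg_right (hexp A.card) hF
  have g2 := mul_le_mul_of_nonneg_right (hexp B.card) hF
  linarith

/-- the vertices on which the events at `v` depend -/
def RR {V : Type} [Fintype V] [DecidableEq V] (G H : SimpleGraph V) [DecidableRel G.Adj]
    [DecidableRel H.Adj] (π : V → V) (v : V) : Finset V :=
  S2 H v ∪ (G.neighborFinset v).image π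

lemma RR_card {V : Type} [Fintype V] [DecidableEq V] (G H : SimpleGraph V) [DecidableRel G.Adj]
    [DecidableRel H.Adj] (π : V → V) (D : ℕ) (hD1 : 1 ≤ D) (hDG : ∀ v, G.degree v ≤ D)
    (hD : ∀ v, H.degree v ≤ D) (v : V) : (RR G H π v).card ≤ 3 * D ^ 2 := by
  unfold RR
  have h1 := Finset.card_union_le (S2 H v) ((G.neighborFinset v).image π)
  have h2 := S2_card H D hD1 hD v
  have h3 : ((G.neighborFinset v).image π).card ≤ D := by
    refine Finset.card_image_le.trans ?_
    rw [SimpleGraph.card_neighborFinset_eq_degree]; exact hDG v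
  have h4 : D ≤ D ^ 2 := by nlinarith
  omega

lemma RR_dep {V : Type} [Fintype V] [DecidableEq V] (G H : SimpleGraph V) [DecidableRel G.Adj]
    [DecidableRel H.Adj] (π : V → V) (htwo : ∀ y, (univ.filter (fun x => π x = y)).card ≤ 2)
    (D : ℕ) (hD1 : 1 ≤ D) (hDG : ∀ v, G.degree v ≤ D)
    (hD : ∀ v, H.degree v ≤ D) (v : V) :
    (univ.filter (fun j => ¬ Disjoint (RR G H π v) (RR G H π j))).card ≤ 12 * D ^ 4 := by
  have hsub : univ.filter (fun j => ¬ Disjoint (RR G H π v) (RR G H π j)) ⊆
      (RR G H π v).biUnion (fun u => S2 H u ∪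
        (univ.filter (fun x => π x = u)).biUnion (fun a => G.neighborFinset a)) := by
    intro j hj
    rw [mem_filter, Finset.not_disjoint_iff] at hj
    obtain ⟨u, hu1, hu2⟩ := hj.2
    rw [mem_biUnion]
    refine ⟨u, hu1, ?_⟩
    unfold RR at hu2
    rw [mem_union] at hu2 ⊢
    rcases hu2 with h | h
    · left; exact S2_symm H u j h
    · right
      rw [mem_image] at h
      obtain ⟨a, ha, hau⟩ := h
      rw [mem_biUnion]
      refine ⟨a, mem_filter.2 ⟨mem_univ _, hau⟩, ?_⟩
      rw [SimpleGraph.mem_neighborFinset] at ha ⊢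
      exact ha.symm
  refine (Finset.card_le_card hsub).trans (Finset.card_biUnion_le.trans ?_)
  have hs : ∀ u ∈ RR G H π v, (S2 H u ∪
        (univ.filter (fun x => π x = u)).biUnion (fun a => G.neighborFinset a)).card ≤
      4 * D ^ 2 := by
    intro u _
    refine (Finset.card_union_le _ _).trans ?_
    have h1 := S2_card H D hD1 hD u
    have h2 : ((univ.filter (fun x => π x = u)).biUnion (fun a => G.neighborFinset a)).card ≤
        2 * D := by
      refine Finset.card_biUnion_le.trans ?_
      refine (Finset.sum_le_card_nsmul _ _ D (fun a _ => by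
        rw [SimpleGraph.card_neighborFinset_eq_degree]; exact hDG a)).trans ?_
      rw [smul_eq_mul]
      exact Nat.mul_le_mul_right _ (htwo u)
    have h4 : D ≤ D ^ 2 := by nlinarith
    omega
  refine (Finset.sum_le_card_nsmul _ _ _ hs).trans ?_
  rw [smul_eq_mul]
  calc (RR G H π v).card * (4 * D ^ 2) ≤ (3 * D ^ 2) * (4 * D ^ 2) :=
        Nat.mul_le_mul_right _ (RR_card G H π D hD1 hDG hD v)
    _ = 12 * D ^ 4 := by ring

open Classical in
/-- the typing -/
theorem typing2 {V : Type} [Fintype V] (G H : SimpleGraph V) [DecidableRel G.Adj]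
    [DecidableRel H.Adj] (π : V → V) (hom : ∀ a b, G.Adj a b → H.Adj (π a) (π b))
    (htwo : ∀ y, (univ.filter (fun x => π x = y)).card ≤ 2)
    (K D Q w k s' g : ℕ) (hK : 1 ≤ K) (hQ : 1 ≤ Q) (hD1 : 1 ≤ D) (hDG : ∀ v, G.degree v ≤ D)
    (hD : ∀ v, H.degree v ≤ D)
    (hs'D : s' ≤ D) (hQk : Q ≤ k + 1) (hwg : w ≤ k + g)
    (x : ℝ) (hx : 0 ≤ x) (hx1 : x ≤ 1) (hxD : 6 ≤ x * D)
    (hw : (1 + x) * D / K ≤ ((w + 1 : ℕ) : ℝ)) (hk : (1 + x) * s' / K ≤ ((k + 1 : ℕ) : ℝ))
    (η a₀ t : ℝ) (ht : 0 ≤ t) (hη0 : 0 ≤ η)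
    (hη : η ≤ (1 - 1 / ((K * Q : ℕ) : ℝ)) ^ (2 * D))
    (hmean : ∀ v, s' < H.degree v →
      2 * (a₀ + t) ≤ ((NA H (H.neighborFinset v)).card : ℝ) * Q *
      ((1 / ((K * Q : ℕ) : ℝ)) ^ 2 * (1 - 1 / ((K * Q : ℕ) : ℝ)) ^ D))
    (hg : 4 * (g : ℝ) ≤ η * a₀)
    (h4 : 4 * (K * (2 * Real.exp (-(x ^ 2 * s' / (3 * K))) +
      (Real.exp (-(t ^ 2) / (8 * D)) + Real.exp (-(η * a₀ / 4))) +
      2 * Real.exp (-(x ^ 3 * D / (384 * K))))) * (12 * D ^ 4 : ℕ) ≤ 1) :
    ∃ T : V → ℕ, (∀ v, T v < K) ∧
      (∀ v y, ((G.neighborFinset v).filter (fun u => T u = y)).card ≤ w) ∧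
      ∃ c : V → ℕ, (∀ v, c v < k + 1) ∧ ∀ u v, G.Adj u v → T u = T v → c u ≠ c v := by
  have hX : Fintype.card (Fin K × Fin Q) = K * Q := by
    rw [Fintype.card_prod, Fintype.card_fin, Fintype.card_fin]
  have hne : Nonempty (Fin K × Fin Q) := ⟨(⟨0, hK⟩, ⟨0, hQ⟩)⟩
  have hcardpos : 0 < Fintype.card (V → Fin K × Fin Q) := Fintype.card_pos
  have hexp : Real.exp (-(x ^ 2 * D / (3 * K))) ≤ Real.exp (-(x ^ 2 * s' / (3 * K))) := by
    apply Real.exp_le_exp.2
    have : (s' : ℝ) ≤ D := by exact_mod_cast hs'D
    have h2 : x ^ 2 * s' / (3 * K) ≤ x ^ 2 * D / (3 * K) := by gcongr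
    linarith
  obtain ⟨s, hs⟩ := lll (ι := V) univ
    (fun v (s : V → Fin K × Fin Q) => ∃ y : Fin K,
      w + 1 ≤ ((H.neighborFinset v).filter (fun u => (s u).1 = y)).card ∨
      k + 1 + (GD H (H.neighborFinset v) (Pal K Q y) s).card ≤
        ((H.neighborFinset v).filter (fun u => (s u).1 = y)).card ∨
      w + 1 ≤ ((G.neighborFinset v).filter (fun u => (s (π u)).1 = y)).card)
    (fun v => RR G H π v)
    (by
      intro v _ s s' hag hbad
      obtain ⟨y, hy⟩ := hbad
      refine ⟨y, ?_⟩
      have hagS : ∀ u ∈ S2 H v, s u = s' u := by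
        intro u hu
        exact hag u (by unfold RR; rw [mem_union]; left; exact hu)
      have e1 : (H.neighborFinset v).filter (fun u => (s u).1 = y) =
          (H.neighborFinset v).filter (fun u => (s' u).1 = y) := by
        apply Finset.filter_congr
        intro u hu
        rw [hagS u (by unfold S2; rw [mem_union]; left; exact hu)]
      have e2 : (G.neighborFinset v).filter (fun u => (s (π u)).1 = y) =
          (G.neighborFinset v).filter (fun u => (s' (π u)).1 = y) := by
        apply Finset.filter_congr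
        intro u hu
        rw [hag (π u) (by unfold RR; rw [mem_union]; right; exact mem_image_of_mem _ hu)]
      rw [e1, e2, GD_congr H v (Pal K Q y) s s' hagS] at hy
      exact hy)
    (K * (2 * Real.exp (-(x ^ 2 * s' / (3 * K))) +
      (Real.exp (-(t ^ 2) / (8 * D)) + Real.exp (-(η * a₀ / 4))) +
      2 * Real.exp (-(x ^ 3 * D / (384 * K))))) (12 * D ^ 4) (by positivity)
    (by
      intro v _
      obtain ⟨E2, hE2⟩ : ∃ E2 : Fin K → (V → Fin K × Fin Q) → Prop, E2 = fun y s =>
        (H.degree v ≤ s' ∧ k + 1 ≤ ((H.neighborFinset v).filter (fun u => (s u).1 = y)).card) ∨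
        (¬ H.degree v ≤ s' ∧ (GD H (H.neighborFinset v) (Pal K Q y) s).card < g) := ⟨_, rfl⟩
      have hsub : ev (fun s : V → Fin K × Fin Q => ∃ y : Fin K,
          w + 1 ≤ ((H.neighborFinset v).filter (fun u => (s u).1 = y)).card ∨
          k + 1 + (GD H (H.neighborFinset v) (Pal K Q y) s).card ≤
            ((H.neighborFinset v).filter (fun u => (s u).1 = y)).card ∨
          w + 1 ≤ ((G.neighborFinset v).filter (fun u => (s (π u)).1 = y)).card) ⊆
          (Finset.univ : Finset (Fin K)).biUnion
            (fun y => (ev (fun s : V → Fin K × Fin Q =>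
              w + 1 ≤ ((H.neighborFinset v).filter (fun u => (s u).1 = y)).card) ∪
              ev (fun s : V → Fin K × Fin Q => E2 y s)) ∪
              ev (fun s : V → Fin K × Fin Q =>
              w + 1 ≤ ((G.neighborFinset v).filter (fun u => (s (π u)).1 = y)).card)) := by
        intro s hs
        rw [mem_ev] at hs
        obtain ⟨y, hy⟩ := hs
        rw [Finset.mem_biUnion]
        refine ⟨y, Finset.mem_univ _, ?_⟩
        rw [mem_union, mem_union]
        by_cases h0 : w + 1 ≤ ((G.neighborFinset v).filter (fun u => (s (π u)).1 = y)).card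
        · right; exact mem_ev.2 h0
        · by_cases h1 : w + 1 ≤ ((H.neighborFinset v).filter (fun u => (s u).1 = y)).card
          · left; left; exact mem_ev.2 h1
          · left; right
            rw [mem_ev, hE2]
            have h2 := (hy.resolve_left h1).resolve_right h0
            by_cases h3 : H.degree v ≤ s'
            · left; exact ⟨h3, by omega⟩
            · right; exact ⟨h3, by omega⟩
      have h1 := (Finset.card_le_card hsub).trans Finset.card_biUnion_le
      have h2 : (cnt (fun s : V → Fin K × Fin Q => ∃ y : Fin K,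
          w + 1 ≤ ((H.neighborFinset v).filter (fun u => (s u).1 = y)).card ∨
          k + 1 + (GD H (H.neighborFinset v) (Pal K Q y) s).card ≤
            ((H.neighborFinset v).filter (fun u => (s u).1 = y)).card ∨
          w + 1 ≤ ((G.neighborFinset v).filter (fun u => (s (π u)).1 = y)).card) : ℝ) ≤
          ∑ y : Fin K, (((cnt (fun s : V → Fin K × Fin Q =>
              w + 1 ≤ ((H.neighborFinset v).filter (fun u => (s u).1 = y)).card) : ℝ) +
              (cnt (fun s : V → Fin K × Fin Q => E2 y s) : ℝ)) +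
              (cnt (fun s : V → Fin K × Fin Q =>
              w + 1 ≤ ((G.neighborFinset v).filter (fun u => (s (π u)).1 = y)).card) : ℝ)) := by
        have h3 : (cnt (fun s : V → Fin K × Fin Q => ∃ y : Fin K,
          w + 1 ≤ ((H.neighborFinset v).filter (fun u => (s u).1 = y)).card ∨
          k + 1 + (GD H (H.neighborFinset v) (Pal K Q y) s).card ≤
            ((H.neighborFinset v).filter (fun u => (s u).1 = y)).card ∨
          w + 1 ≤ ((G.neighborFinset v).filter (fun u => (s (π u)).1 = y)).card)) ≤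
          ∑ y : Fin K, (((cnt (fun s : V → Fin K × Fin Q =>
              w + 1 ≤ ((H.neighborFinset v).filter (fun u => (s u).1 = y)).card)) +
              (cnt (fun s : V → Fin K × Fin Q => E2 y s))) +
              (cnt (fun s : V → Fin K × Fin Q =>
              w + 1 ≤ ((G.neighborFinset v).filter (fun u => (s (π u)).1 = y)).card))) := by
          refine h1.trans (Finset.sum_le_sum ?_)
          intro y _
          exact (Finset.card_union_le _ _).trans (Nat.add_le_add_right
            (Finset.card_union_le _ _) _)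
        exact_mod_cast h3
      refine h2.trans ?_
      have h5 : ∀ y ∈ (univ : Finset (Fin K)),
          (((cnt (fun s : V → Fin K × Fin Q =>
              w + 1 ≤ ((H.neighborFinset v).filter (fun u => (s u).1 = y)).card) : ℝ) +
              (cnt (fun s : V → Fin K × Fin Q => E2 y s) : ℝ)) +
              (cnt (fun s : V → Fin K × Fin Q =>
              w + 1 ≤ ((G.neighborFinset v).filter (fun u => (s (π u)).1 = y)).card) : ℝ)) ≤
            (2 * Real.exp (-(x ^ 2 * s' / (3 * K))) +
              (Real.exp (-(t ^ 2) / (8 * D)) + Real.exp (-(η * a₀ / 4))) +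
              2 * Real.exp (-(x ^ 3 * D / (384 * K)))) *
              Fintype.card (V → Fin K × Fin Q) := by
        intro y _
        have h6 : (cnt (fun s : V → Fin K × Fin Q =>
              w + 1 ≤ ((H.neighborFinset v).filter (fun u => (s u).1 = y)).card) : ℝ) ≤
              Real.exp (-(x ^ 2 * s' / (3 * K))) * Fintype.card (V → Fin K × Fin Q) := by
          rw [cnt_eq]
          exact (tail2 K Q D hK (H.neighborFinset v) (by
            rw [SimpleGraph.card_neighborFinset_eq_degree]; exact hD v) y x hx hx1 (w + 1) hw).trans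
            (mul_le_mul_of_nonneg_right hexp (by positivity))
        have h6' : (cnt (fun s : V → Fin K × Fin Q =>
              w + 1 ≤ ((G.neighborFinset v).filter (fun u => (s (π u)).1 = y)).card) : ℝ) ≤
              2 * Real.exp (-(x ^ 3 * D / (384 * K))) * Fintype.card (V → Fin K × Fin Q) := by
          rw [cnt_eq]
          exact tail_tied π htwo K Q D hK (G.neighborFinset v) (by
            rw [SimpleGraph.card_neighborFinset_eq_degree]; exact hDG v) y x hx hx1 hxD w hw
        have h7 : (cnt (fun s : V → Fin K × Fin Q => E2 y s) : ℝ) ≤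
            (Real.exp (-(x ^ 2 * s' / (3 * K))) +
              (Real.exp (-(t ^ 2) / (8 * D)) + Real.exp (-(η * a₀ / 4)))) *
              Fintype.card (V → Fin K × Fin Q) := by
          rw [cnt_eq]
          by_cases hdeg : H.degree v ≤ s'
          · have h8 := tail2 K Q s' hK (H.neighborFinset v) (by
              rw [SimpleGraph.card_neighborFinset_eq_degree]; exact hdeg) y x hx hx1 (k + 1) hk
            have e : univ.filter (fun s : V → Fin K × Fin Q => E2 y s) =
                univ.filter (fun s : V → Fin K × Fin Q =>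
                  k + 1 ≤ ((H.neighborFinset v).filter (fun u => (s u).1 = y)).card) := by
              apply Finset.filter_congr
              intro s _
              rw [hE2]
              constructor
              · rintro (h | h)
                · exact h.2
                · exact absurd hdeg h.1
              · intro h; left; exact ⟨hdeg, h⟩
            rw [e]
            refine h8.trans (mul_le_mul_of_nonneg_right ?_ (by positivity))
            have := Real.exp_pos (-(t ^ 2) / (8 * D))
            have := Real.exp_pos (-(η * a₀ / 4))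
            linarith
          · have hm := hmean v (not_le.1 hdeg)
            have h8 := GD_tail H (H.neighborFinset v) (Pal K Q y) D g hD (by
              rw [SimpleGraph.card_neighborFinset_eq_degree]; exact hD v) hD1 η a₀ t ht hη0
              (by rw [hX]; exact hη) (by rw [hX, Pal_card]; exact hm) hg
            have e : univ.filter (fun s : V → Fin K × Fin Q => E2 y s) =
                univ.filter (fun s : V → Fin K × Fin Q =>
                  (GD H (H.neighborFinset v) (Pal K Q y) s).card < g) := by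
              apply Finset.filter_congr
              intro s _
              rw [hE2]
              constructor
              · rintro (h | h)
                · exact absurd h.1 hdeg
                · exact h.2
              · intro h; right; exact ⟨hdeg, h⟩
            rw [e]
            refine h8.trans (mul_le_mul_of_nonneg_right ?_ (by positivity))
            have := Real.exp_pos (-(x ^ 2 * s' / (3 * K)))
            linarith
        have e : (2 * Real.exp (-(x ^ 2 * s' / (3 * K))) +
              (Real.exp (-(t ^ 2) / (8 * D)) + Real.exp (-(η * a₀ / 4))) +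
              2 * Real.exp (-(x ^ 3 * D / (384 * K)))) *
              (Fintype.card (V → Fin K × Fin Q) : ℝ) =
            (Real.exp (-(x ^ 2 * s' / (3 * K))) * Fintype.card (V → Fin K × Fin Q) +
            (Real.exp (-(x ^ 2 * s' / (3 * K))) +
              (Real.exp (-(t ^ 2) / (8 * D)) + Real.exp (-(η * a₀ / 4)))) *
              Fintype.card (V → Fin K × Fin Q)) +
              2 * Real.exp (-(x ^ 3 * D / (384 * K))) *
              Fintype.card (V → Fin K × Fin Q) := by ring
        rw [e]
        exact add_le_add (add_le_add h6 h7) h6'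
      refine (Finset.sum_le_sum h5).trans ?_
      rw [Finset.sum_const, Finset.card_univ, Fintype.card_fin, nsmul_eq_mul]
      exact le_of_eq (by ring))
    (by
      intro v _
      exact RR_dep G H π htwo D hD1 hDG hD v)
    (by exact_mod_cast h4) (by
      have : 1 ≤ D ^ 4 := Nat.one_le_pow _ _ hD1
      omega) hcardpos
  have hgood : ∀ v (y : Fin K), ((H.neighborFinset v).filter (fun u => (s u).1 = y)).card ≤ w ∧
      ((H.neighborFinset v).filter (fun u => (s u).1 = y)).card <
      k + 1 + (GD H (H.neighborFinset v) (Pal K Q y) s).card ∧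
      ((G.neighborFinset v).filter (fun u => (s (π u)).1 = y)).card ≤ w := by
    intro v y
    have h1 := hs v (mem_univ v)
    rw [not_exists] at h1
    have h2 := h1 y
    rw [not_or, not_or] at h2
    omega
  obtain ⟨c, hc1, hc2⟩ := completion H K Q (k + 1) hQk s (fun v y => (hgood v y).2.1)
  refine ⟨fun v => ((s (π v)).1 : ℕ), fun v => (s (π v)).1.2, ?_, fun v => c (π v),
    fun v => hc1 _, ?_⟩
  · intro v y
    by_cases hy : y < K
    · have h3 : (G.neighborFinset v).filter (fun u => ((s (π u)).1 : ℕ) = y) =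
          (G.neighborFinset v).filter (fun u => (s (π u)).1 = ⟨y, hy⟩) := by
        apply Finset.filter_congr
        intro u _
        rw [Fin.ext_iff]
      rw [h3]
      exact (hgood v ⟨y, hy⟩).2.2
    · have h3 : (G.neighborFinset v).filter (fun u => ((s (π u)).1 : ℕ) = y) = ∅ := by
        apply Finset.filter_eq_empty_iff.2
        intro u _ h
        exact hy (by rw [← h]; exact (s (π u)).1.2)
      rw [h3]; simp
  · intro u v huv ht
    exact hc2 (π u) (π v) (hom u v huv) (Fin.ext ht)

end Pool.Agent.K1H33.HY
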