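import Mathlib
import Pool.Agent.TH104.LS.F
import Pool.Agent.K1H33.HY.Spars
import Pool.Agent.K1H33.HY.Typ2

set_option autoImplicit false

/-!
# The labelling from a sparse merged graph
-/

namespace Pool.Agent.K1H33.HY

open Finset Pool.Agent.Helper635.LLL Pool.Agent.H238R2.HY Pool.Agent.TH104.HY
  Pool.Agent.TH104.LS

lemma lll_number2 {m δ D s' Q x t a₀ : ℝ} (hm : 1 ≤ m) (hδ : 0 < δ) (hδ1 : δ ≤ 1) (hD : 0 < D)
    (hx : x = 1 / (4 * m)) (hs' : D / 2 ≤ s') (hQ : D ≤ 4 * m * Q) (ht : t = δ * Q / 256)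
    (ha : a₀ = δ * Q / 256)
    (hD3 : 69120 * m * (2 ^ 23 * m ^ 4 / δ ^ 2) ^ 5 ≤ D) :
    4 * (2 * m * (2 * Real.exp (-(x ^ 2 * s' / (3 * (2 * m)))) +
      (Real.exp (-(t ^ 2) / (8 * D)) + Real.exp (-(1 / 256 * a₀ / 4))) +
      2 * Real.exp (-(x ^ 3 * D / (384 * (2 * m)))))) * (12 * D ^ 4) ≤ 1 := by
  have hm0 : 0 < m := by linarith
  obtain ⟨c, hc⟩ : ∃ c : ℝ, c = δ ^ 2 / (2 ^ 23 * m ^ 4) := ⟨_, rfl⟩
  have hc0 : 0 < c := by rw [hc]; positivity
  have hcc : c ≤ δ ^ 2 / (2 ^ 23 * m ^ 3) := by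
    rw [hc]
    apply div_le_div_of_nonneg_left (by positivity) (by positivity)
    have : m ^ 3 * 1 ≤ m ^ 3 * m := mul_le_mul_of_nonneg_left hm (by positivity)
    nlinarith
  have hQ0 : 0 < Q := by
    by_contra h
    rw [not_lt] at h
    have : 4 * m * Q ≤ 0 := mul_nonpos_of_nonneg_of_nonpos (by positivity) h
    linarith
  have hm2 : 1 ≤ m ^ 2 := one_le_pow₀ hm
  have hδ2 : δ ^ 2 ≤ 1 := pow_le_one₀ hδ.le hδ1
  have hδ3 : δ ^ 2 ≤ δ := by nlinarith
  have hQm : δ * D / (1024 * m) ≤ δ * Q / 256 := by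
    rw [div_le_div_iff₀ (by positivity) (by norm_num)]
    have := mul_le_mul_of_nonneg_left hQ hδ.le
    nlinarith
  have e1 : δ ^ 2 / (2 ^ 23 * m ^ 3) * D ≤ x ^ 2 * s' / (3 * (2 * m)) := by
    have h1 : x ^ 2 * (D / 2) / (3 * (2 * m)) ≤ x ^ 2 * s' / (3 * (2 * m)) := by gcongr
    refine le_trans ?_ h1
    have h2 : x ^ 2 * (D / 2) / (3 * (2 * m)) = D / (192 * m ^ 3) := by
      rw [hx]; field_simp; ring
    rw [h2, div_mul_eq_mul_div, div_le_div_iff₀ (by positivity) (by positivity)]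
    have h3 : δ ^ 2 * D ≤ 1 * D := mul_le_mul_of_nonneg_right hδ2 hD.le
    have h4 : δ ^ 2 * D * (192 * m ^ 3) ≤ 1 * D * (192 * m ^ 3) :=
      mul_le_mul_of_nonneg_right h3 (by positivity)
    have h5 : 0 ≤ D * m ^ 3 := by positivity
    nlinarith
  have e2 : δ ^ 2 / (2 ^ 23 * m ^ 3) * D ≤ t ^ 2 / (8 * D) := by
    have h1 : (δ * D / (1024 * m)) ^ 2 / (8 * D) ≤ t ^ 2 / (8 * D) := by
      rw [ht]
      gcongr
    refine le_trans ?_ h1
    have h2 : (δ * D / (1024 * m)) ^ 2 / (8 * D) = δ ^ 2 * D / (2 ^ 23 * m ^ 2) := by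
      field_simp; ring
    rw [h2, div_mul_eq_mul_div]
    apply div_le_div_of_nonneg_left (by positivity) (by positivity)
    have : m ^ 2 * 1 ≤ m ^ 2 * m := mul_le_mul_of_nonneg_left hm (by positivity)
    nlinarith
  have e3 : δ ^ 2 / (2 ^ 23 * m ^ 3) * D ≤ 1 / 256 * a₀ / 4 := by
    have h1 : 1 / 256 * (δ * D / (1024 * m)) / 4 ≤ 1 / 256 * a₀ / 4 := by
      rw [ha]
      gcongr
    refine le_trans ?_ h1
    have h2 : 1 / 256 * (δ * D / (1024 * m)) / 4 = δ * D / (2 ^ 20 * m) := by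
      field_simp; ring
    rw [h2, div_mul_eq_mul_div, div_le_div_iff₀ (by positivity) (by positivity)]
    have h3 : δ ^ 2 * D ≤ δ * D := mul_le_mul_of_nonneg_right hδ3 hD.le
    have h4 : m * 1 ≤ m * m ^ 2 := mul_le_mul_of_nonneg_left hm2 hm0.le
    have h5 : δ ^ 2 * D * (2 ^ 20 * m) ≤ δ * D * (2 ^ 20 * m) :=
      mul_le_mul_of_nonneg_right h3 (by positivity)
    refine h5.trans ?_
    apply mul_le_mul_of_nonneg_left _ (by positivity)
    nlinarith
  have e4 : c * D ≤ x ^ 3 * D / (384 * (2 * m)) := by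
    have h2 : x ^ 3 * D / (384 * (2 * m)) = D / (49152 * m ^ 4) := by
      rw [hx]; field_simp; ring
    rw [h2, hc, div_mul_eq_mul_div, div_le_div_iff₀ (by positivity) (by positivity)]
    have h3 : δ ^ 2 * D ≤ 1 * D := mul_le_mul_of_nonneg_right hδ2 hD.le
    have h4 : δ ^ 2 * D * (49152 * m ^ 4) ≤ 1 * D * (49152 * m ^ 4) :=
      mul_le_mul_of_nonneg_right h3 (by positivity)
    have h5 : 0 ≤ D * m ^ 4 := by positivity
    nlinarith
  have hcD := mul_le_mul_of_nonneg_right hcc hD.le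
  have f1 : Real.exp (-(x ^ 2 * s' / (3 * (2 * m)))) ≤ Real.exp (-(c * D)) :=
    Real.exp_le_exp.2 (by linarith)
  have f2 : Real.exp (-(t ^ 2) / (8 * D)) ≤ Real.exp (-(c * D)) := by
    apply Real.exp_le_exp.2
    rw [neg_div]
    linarith
  have f3 : Real.exp (-(1 / 256 * a₀ / 4)) ≤ Real.exp (-(c * D)) :=
    Real.exp_le_exp.2 (by linarith)
  have f4 : Real.exp (-(x ^ 3 * D / (384 * (2 * m)))) ≤ Real.exp (-(c * D)) :=
    Real.exp_le_exp.2 (by linarith)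
  have h5 := exp_small5 hc0 hD
  have h6 : 120 / (c ^ 5 * D) * (576 * m) ≤ 1 := by
    have h7 : 120 / (c ^ 5 * D) * (576 * m) = 69120 * m * (2 ^ 23 * m ^ 4 / δ ^ 2) ^ 5 / D := by
      rw [hc]
      field_simp
      ring
    rw [h7, div_le_one hD]
    exact hD3
  calc 4 * (2 * m * (2 * Real.exp (-(x ^ 2 * s' / (3 * (2 * m)))) +
      (Real.exp (-(t ^ 2) / (8 * D)) + Real.exp (-(1 / 256 * a₀ / 4))) +
      2 * Real.exp (-(x ^ 3 * D / (384 * (2 * m)))))) * (12 * D ^ 4)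
      ≤ 4 * (2 * m * (2 * Real.exp (-(c * D)) +
      (Real.exp (-(c * D)) + Real.exp (-(c * D))) +
      2 * Real.exp (-(c * D)))) * (12 * D ^ 4) := by gcongr
    _ = Real.exp (-(c * D)) * D ^ 4 * (576 * m) := by ring
    _ ≤ 120 / (c ^ 5 * D) * (576 * m) := mul_le_mul_of_nonneg_right h5 (by positivity)
    _ ≤ 1 := h6

set_option maxHeartbeats 2000000 in
open Classical in
/-- the structure theorem with real parameters -/
theorem tied_core {V : Type} [Fintype V] (G H : SimpleGraph V) [DecidableRel G.Adj]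
    [DecidableRel H.Adj] (π : V → V) (hom : ∀ a b, G.Adj a b → H.Adj (π a) (π b))
    (htwo : ∀ y, (univ.filter (fun x => π x = y)).card ≤ 2)
    (D p q m : ℕ) (δ e : ℝ) (hδ : 0 < δ) (hδ1 : δ ≤ 1) (he : e = δ / 2 ^ 20)
    (hDG : ∀ v, G.degree v ≤ D)
    (hD : ∀ v, H.degree v ≤ D)
    (hsp : ∀ v, ((((H.neighborFinset v) ×ˢ (H.neighborFinset v)).filter
      (fun a => H.Adj a.1 a.2)).card : ℝ) ≤ (1 - δ) * (D : ℝ) ^ 2)
    (hp : (1 - e / 2) * (D : ℝ) ≤ 2 * p)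
    (hq : 1 ≤ ((q : ℝ) + 1) * e) (hm : 8 * (q : ℝ) + 12 ≤ e * ((m : ℝ) - 1 - q))
    (hD1 : 24 * (m : ℝ) ≤ e * D) (hD2 : 4 * (m : ℝ) * (2 * m + 1) ≤ D)
    (hD3 : 69120 * (m : ℝ) * (2 ^ 23 * (m : ℝ) ^ 4 / δ ^ 2) ^ 5 ≤ D) :
    TotLab G p (D + 2 * p - 1) := by
  have he0 : 0 < e := by rw [he]; positivity
  have he2 : e ≤ 1 / 2 := by rw [he]; linarith
  have heδ : e ≤ δ := by rw [he]; linarith
  have hq0 : (0 : ℝ) ≤ q := by positivity
  have hZ : 8 * (q : ℝ) + 12 ≤ (m : ℝ) - 1 - q := by nlinarith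
  have hm2 : 2 * (q : ℝ) + 1 ≤ m := by linarith
  have hm2' : 2 * q + 1 ≤ m := by exact_mod_cast hm2
  have hmR : (13 : ℝ) ≤ m := by linarith
  have hm0 : (0 : ℝ) < m := by linarith
  have hDpos : (0 : ℝ) < D := by nlinarith
  have hem : 8 * (q : ℝ) + 12 ≤ e * m := by
    have : 0 ≤ e * (1 + q) := by positivity
    linarith
  obtain ⟨x, hx⟩ : ∃ x : ℝ, x = 1 / (4 * (m : ℝ)) := ⟨_, rfl⟩
  have hxm : x * m = 1 / 4 := by rw [hx]; field_simp
  have hx0 : 0 < x := by rw [hx]; positivity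
  have hx4 : x ≤ 1 / 4 := by nlinarith
  obtain ⟨u, hu⟩ : ∃ u : ℝ, u = (1 + x) * D / (2 * (m : ℝ)) := ⟨_, rfl⟩
  have hum : 2 * m * u = D + x * D := by rw [hu]; field_simp
  have hu0 : 0 < u := by rw [hu]; positivity
  have hmu : (D : ℝ) ≤ 2 * m * u := by
    rw [hum]
    have : 0 ≤ x * D := by positivity
    linarith
  have heD : e * D ≤ 1 / 2 * D := mul_le_mul_of_nonneg_right he2 hDpos.le
  obtain ⟨s', hs'⟩ : ∃ s' : ℕ, s' = ⌊(1 - e) * (D : ℝ)⌋₊ := ⟨_, rfl⟩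
  have hs1 : (s' : ℝ) ≤ (1 - e) * D := by
    rw [hs']; exact Nat.floor_le (mul_nonneg (by linarith) hDpos.le)
  have hs2 : (1 - e) * (D : ℝ) ≤ s' + 1 := by
    rw [hs']; exact (Nat.lt_floor_add_one _).le
  have heDm : 24 * (13 : ℝ) ≤ e * D := by linarith
  have hδD : 2 ≤ δ * D := by
    have : e * D ≤ δ * D := mul_le_mul_of_nonneg_right heδ hDpos.le
    linarith
  have he3 : e ≤ 1 / 8 := by rw [he]; linarith
  have heD3 : e * D ≤ 1 / 8 * D := mul_le_mul_of_nonneg_right he3 hDpos.le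
  have hs'half : (D : ℝ) / 2 ≤ s' := by linarith
  have hs'Dr : (s' : ℝ) ≤ D := by linarith
  have hs'D : s' ≤ D := by exact_mod_cast hs'Dr
  have hD1' : 1 ≤ D := by
    have : (0 : ℝ) < D := hDpos
    exact_mod_cast this
  have hcast : ((2 * m : ℕ) : ℝ) = 2 * (m : ℝ) := by push_cast; ring
  have hmN : 1 ≤ m := by omega
  have hK : 1 ≤ 2 * m := by omega
  obtain ⟨w, hw⟩ : ∃ w : ℕ, w = ⌊(1 + x) * D / (2 * (m : ℝ))⌋₊ := ⟨_, rfl⟩
  obtain ⟨k', hk'⟩ : ∃ k' : ℕ, k' = ⌊(1 + x) * s' / (2 * (m : ℝ))⌋₊ := ⟨_, rfl⟩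
  have hwu : (w : ℝ) ≤ u := by rw [hw, hu]; exact Nat.floor_le (by positivity)
  have huw : u ≤ w + 1 := by rw [hw, hu]; exact (Nat.lt_floor_add_one _).le
  have hku : (k' : ℝ) ≤ (1 + x) * s' / (2 * (m : ℝ)) := by
    rw [hk']; exact Nat.floor_le (by positivity)
  have hkl : (1 + x) * s' / (2 * (m : ℝ)) ≤ (k' : ℝ) + 1 := by
    rw [hk']; exact (Nat.lt_floor_add_one _).le
  have hkl2 : (1 + x) * s' < 2 * m * ((k' : ℝ) + 1) := by
    have h1 : (1 + x) * s' / (2 * (m : ℝ)) < (k' : ℝ) + 1 := by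
      rw [hk']; exact Nat.lt_floor_add_one _
    rw [div_lt_iff₀ (by positivity)] at h1
    linarith
  have hku2 : 2 * m * (k' : ℝ) ≤ (1 + x) * s' := by
    rw [le_div_iff₀ (by positivity)] at hku
    linarith
  have hku3 : (k' : ℝ) ≤ (1 - e) * u := by
    refine hku.trans ?_
    rw [hu, ← mul_div_assoc]
    refine div_le_div_of_nonneg_right ?_ (by positivity)
    have := mul_le_mul_of_nonneg_left hs1 (by linarith : (0 : ℝ) ≤ 1 + x)
    linarith
  have hkw0 : k' ≤ w := by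
    rw [hk', hw]
    apply Nat.floor_mono
    refine div_le_div_of_nonneg_right ?_ (by positivity)
    exact mul_le_mul_of_nonneg_left hs'Dr (by linarith)
  have hkw : k' + 1 ≤ w + 1 := by omega
  -- the number of temporary colours
  obtain ⟨Q, hQ⟩ : ∃ Q : ℕ, Q = ⌈(D : ℝ) / (4 * (m : ℝ))⌉₊ := ⟨_, rfl⟩
  have hQ1 : (D : ℝ) ≤ 4 * m * Q := by
    have h1 : (D : ℝ) / (4 * (m : ℝ)) ≤ Q := by rw [hQ]; exact Nat.le_ceil _
    rw [div_le_iff₀ (by positivity)] at h1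
    linarith
  have hQ2 : 4 * m * (Q : ℝ) < D + 4 * m := by
    have h1 : (Q : ℝ) < (D : ℝ) / (4 * (m : ℝ)) + 1 := by
      rw [hQ]; exact Nat.ceil_lt_add_one (by positivity)
    have h2 : 4 * (m : ℝ) * Q < 4 * m * ((D : ℝ) / (4 * (m : ℝ)) + 1) :=
      mul_lt_mul_of_pos_left h1 (by positivity)
    have h3 : 4 * m * ((D : ℝ) / (4 * (m : ℝ)) + 1) = D + 4 * m := by field_simp
    linarith
  have hQpos : (0 : ℝ) < Q := by
    by_contra h
    rw [not_lt] at h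
    have : 4 * m * (Q : ℝ) ≤ 0 := mul_nonpos_of_nonneg_of_nonpos (by positivity) h
    linarith
  have hQN : 1 ≤ Q := by exact_mod_cast hQpos
  have hQk : Q ≤ k' + 1 := by
    have h1 : (Q : ℝ) < (k' : ℝ) + 1 + 1 := by
      have h2 : (s' : ℝ) ≤ (1 + x) * s' := by
        have : 0 ≤ x * s' := by positivity
        linarith
      have h3 : 4 * m * (Q : ℝ) < 4 * m * ((k' : ℝ) + 1 + 1) := by linarith
      exact lt_of_mul_lt_mul_left h3 (by positivity)
    have h2 : Q < k' + 1 + 1 := by exact_mod_cast h1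
    omega
  have hg1 := g_ok (m := (m : ℝ)) (e := e) (D := (D : ℝ)) hmR hx0.le hx4 hum hwu hkl2.le hs2 hD1
  have hn : ((2 * m * Q : ℕ) : ℝ) = 2 * m * Q := by push_cast; ring
  have hnD : ((2 * m * Q : ℕ) : ℝ) ≤ D := by
    rw [hn]
    have h1 : 4 * (m : ℝ) * 1 ≤ 4 * m * (2 * m + 1) :=
      mul_le_mul_of_nonneg_left (by linarith) (by positivity)
    linarith
  have hb : (1 : ℝ) / 16 ≤ (1 - 1 / ((2 * m * Q : ℕ) : ℝ)) ^ D := by
    have h1 : D ≤ 4 * (m * Q) := by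
      have : (D : ℝ) ≤ ((4 * (m * Q) : ℕ) : ℝ) := by push_cast; linarith
      exact_mod_cast this
    have h2 := pow_low (m * Q) D (Nat.mul_pos hmN hQN) h1
    rw [← mul_assoc] at h2
    exact h2
  obtain ⟨T, hT1, hT2, c, hc1, hc2⟩ := typing2 G H π hom htwo (2 * m) D Q w k' s' (w - k') hK hQN hD1'
    hDG hD hs'D hQk (by omega) x hx0.le (by linarith)
    (by
      have h1 : 24 * (m : ℝ) ≤ 1 / 2 * D := hD1.trans heD
      have h2 : x * D * (4 * m) = D := by rw [hx]; field_simp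
      have h3 : 6 * (4 * (m : ℝ)) ≤ x * D * (4 * m) := by rw [h2]; linarith
      exact le_of_mul_le_mul_right h3 (by positivity))
    (by rw [hcast]; push_cast; rw [← hu]; exact huw)
    (by rw [hcast]; push_cast; exact hkl)
    (1 / 256) (δ * Q / 256) (δ * Q / 256) (by positivity) (by norm_num)
    (by
      have h1 : (1 : ℝ) / 256 = (1 / 16) ^ 2 := by norm_num
      rw [h1, mul_comm 2 D, pow_mul]
      exact pow_le_pow_left₀ (by norm_num) hb 2)
    (by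
      intro v hv
      have hdeg := SimpleGraph.card_neighborFinset_eq_degree H v
      refine mean_ok hδ hDpos hQpos.le (by rw [hn]; positivity) hnD hb ?_
      refine NA_real (d := (H.degree v : ℝ)) (s' := (s' : ℝ)) hδ he hδ1 hδD hs2 ?_ ?_ (hsp v) ?_
      · exact_mod_cast hv
      · exact_mod_cast hD v
      · have h1 := NA_count H (H.neighborFinset v)
        rw [hdeg] at h1
        exact_mod_cast h1)
    (by
      rw [Nat.cast_sub hkw0]
      have h1 : (m : ℝ) * (4 * ((w : ℝ) - k')) ≤ m * (1 / 256 * (δ * Q / 256)) := by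
        have h2 : (m : ℝ) * (1 / 256 * (δ * Q / 256)) = δ * (4 * m * Q) / 2 ^ 18 := by
          ring
        rw [h2]
        have h3 : δ * D / 2 ^ 18 ≤ δ * (4 * m * Q) / 2 ^ 18 := by
          apply div_le_div_of_nonneg_right _ (by norm_num)
          exact mul_le_mul_of_nonneg_left hQ1 hδ.le
        refine le_trans ?_ h3
        have h4 : δ * D / 2 ^ 18 = 4 * (e * D) := by rw [he]; ring
        rw [h4]
        linarith
      exact le_of_mul_le_mul_left h1 hm0)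
    (by
      have h := lll_number2 (m := (m : ℝ)) (δ := δ) (D := (D : ℝ)) (s' := (s' : ℝ))
        (Q := (Q : ℝ)) (x := x) (t := δ * Q / 256) (a₀ := δ * Q / 256) (by linarith) hδ hδ1
        hDpos hx hs'half hQ1 rfl rfl hD3
      rw [hcast]
      push_cast
      exact h)
  have hp1 : 1 ≤ p := by
    have h1 : (0 : ℝ) < (1 - e / 2) * D := mul_pos (by linarith) hDpos
    have : (0 : ℝ) < p := by linarith
    exact_mod_cast this
  -- u e ≥ 12
  have hue : 12 ≤ e * u := by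
    have h1 : 24 * (m : ℝ) ≤ e * (2 * m * u) := hD1.trans (mul_le_mul_of_nonneg_left hmu he0.le)
    have h3 : (2 * (m : ℝ)) * 12 ≤ (2 * (m : ℝ)) * (e * u) := by linarith
    exact le_of_mul_le_mul_left h3 (by positivity)
  have hk0 : (0 : ℝ) ≤ k' := by positivity
  have hs0 : (0 : ℝ) ≤ s' - e * D / 2 := by linarith
  have hpp : ((s' : ℝ) - e * D / 2) + e * D ≤ 2 * p := by linarith
  refine structB G m q w (k' + 1) p D hm2' hp1 T hT1 hT2 c hc1 hc2 hkw ?_ ?_ ?_ ?_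
  · have h := arH1 hq0 hu0 hm hZ hue huw hku3
    exact_mod_cast h
  · have h := arH2 hq0 hu0 hm0 hq hZ hwu hku3 hxm hum hmu hD2
    exact_mod_cast h
  · have h := arH3 (s := (s' : ℝ) - e * D / 2) hm0 hx0 hx4 hDpos he0 hs'Dr hq0 hem hwu hxm hum
      hku2 (by linarith) hpp hD1
    exact_mod_cast h
  · have h := arH4 (s := (s' : ℝ) - e * D / 2) hm0 hx4 hk0 hs0 hDpos he0 he2 hq0 hem hwu hum
      hpp hD1
    exact_mod_cast h


end Pool.Agent.K1H33.HY
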