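import Mathlib
import Pool.Agent.K1H33.HY.Core

set_option autoImplicit false

/-!
# Graphs without cliques of nearly maximum size
-/

namespace Pool.Agent.K1H33.HY

open Finset Pool.Agent.TH104.HY Pool.Agent.TH104.LS

/-- the numerical conditions -/
lemma numer {e D : ℝ} (he0 : 0 < e) (he : e ≤ 1 / 2 ^ 42) (hD : 1 / e ^ 52 ≤ D) :
    ∃ q m : ℕ, 1 ≤ ((q : ℝ) + 1) * e ∧ 8 * (q : ℝ) + 12 ≤ e * ((m : ℝ) - 1 - q) ∧
      24 * (m : ℝ) ≤ e * D ∧ 4 * (m : ℝ) * (2 * m + 1) ≤ D ∧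
      69120 * (m : ℝ) * (2 ^ 23 * (m : ℝ) ^ 4 / (2 ^ 20 * e) ^ 2) ^ 5 ≤ D := by
  obtain ⟨f, hf⟩ : ∃ f : ℝ, f = 1 / e := ⟨_, rfl⟩
  have hf42 : (2 : ℝ) ^ 42 ≤ f := by
    rw [hf, le_div_iff₀ he0]
    have := mul_le_mul_of_nonneg_left he (by norm_num : (0 : ℝ) ≤ 2 ^ 42)
    linarith
  have hf0 : 0 < f := by rw [hf]; positivity
  have hef : e = 1 / f := by rw [hf]; field_simp
  have hDf : f ^ 52 ≤ D := by
    have : f ^ 52 = 1 / e ^ 52 := by rw [hf]; field_simp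
    rw [this]; exact hD
  obtain ⟨q, hq⟩ : ∃ q : ℕ, q = ⌊f⌋₊ := ⟨_, rfl⟩
  have hq1 : (q : ℝ) ≤ f := by rw [hq]; exact Nat.floor_le hf0.le
  have hq2 : f < (q : ℝ) + 1 := by rw [hq]; exact Nat.lt_floor_add_one _
  obtain ⟨m, hm⟩ : ∃ m : ℕ, m = ⌈(8 * (q : ℝ) + 12) * f + 1 + q⌉₊ := ⟨_, rfl⟩
  have hm1 : (8 * (q : ℝ) + 12) * f + 1 + q ≤ m := by rw [hm]; exact Nat.le_ceil _
  have hm2 : (m : ℝ) < (8 * (q : ℝ) + 12) * f + 1 + q + 1 := by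
    rw [hm]; exact Nat.ceil_lt_add_one (by positivity)
  have hm9 : (m : ℝ) ≤ 9 * f ^ 2 := by
    have h1 : (8 * (q : ℝ) + 12) * f ≤ (8 * f + 12) * f :=
      mul_le_mul_of_nonneg_right (by linarith) hf0.le
    have h2 : (2 : ℝ) ^ 42 * f ≤ f * f := mul_le_mul_of_nonneg_right hf42 hf0.le
    nlinarith
  have hm0 : (0 : ℝ) ≤ m := by positivity
  have hf1 : (1 : ℝ) ≤ f := by
    have : (1 : ℝ) ≤ 2 ^ 42 := by norm_num
    linarith
  have hm1' : (1 : ℝ) ≤ m := by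
    have : 0 ≤ (8 * (q : ℝ) + 12) * f := by positivity
    have : (0 : ℝ) ≤ q := by positivity
    linarith
  have hD0 : 0 < D := lt_of_lt_of_le (by positivity) hDf
  refine ⟨q, m, ?_, ?_, ?_, ?_, ?_⟩
  · rw [hef, mul_one_div, le_div_iff₀ hf0]; linarith
  · have h1 : (8 * (q : ℝ) + 12) * f ≤ m - 1 - q := by linarith
    rw [hef, one_div, ← div_eq_inv_mul, le_div_iff₀ hf0]
    exact h1
  · rw [hef, one_div, ← div_eq_inv_mul, le_div_iff₀ hf0]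
    have h1 : 24 * (m : ℝ) * f ≤ 24 * (9 * f ^ 2) * f :=
      mul_le_mul_of_nonneg_right (by linarith) hf0.le
    have h2 : 24 * (9 * f ^ 2) * f = 216 * f ^ 3 := by ring
    have h3 : f ^ 4 ≤ f ^ 52 := pow_le_pow_right₀ hf1 (by norm_num)
    have h4 : (216 : ℝ) * f ^ 3 ≤ f * f ^ 3 := by
      apply mul_le_mul_of_nonneg_right _ (by positivity)
      have : (216 : ℝ) ≤ 2 ^ 42 := by norm_num
      linarith
    have h5 : f * f ^ 3 = f ^ 4 := by ring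
    linarith
  · have h1 : 4 * (m : ℝ) * (2 * m + 1) ≤ 12 * (m : ℝ) ^ 2 := by nlinarith
    have h2 : (m : ℝ) ^ 2 ≤ (9 * f ^ 2) ^ 2 := pow_le_pow_left₀ hm0 hm9 2
    have h3 : f ^ 5 ≤ f ^ 52 := pow_le_pow_right₀ hf1 (by norm_num)
    have h4 : (972 : ℝ) * f ^ 4 ≤ f * f ^ 4 := by
      apply mul_le_mul_of_nonneg_right _ (by positivity)
      have : (972 : ℝ) ≤ 2 ^ 42 := by norm_num
      linarith
    have h5 : f * f ^ 4 = f ^ 5 := by ring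
    nlinarith
  · have h1 : 69120 * (m : ℝ) * (2 ^ 23 * (m : ℝ) ^ 4 / (2 ^ 20 * e) ^ 2) ^ 5 =
        69120 / 2 ^ 85 * (m : ℝ) ^ 21 * f ^ 10 := by
      rw [hef]
      field_simp
    rw [h1]
    have h2 : (m : ℝ) ^ 21 ≤ (9 * f ^ 2) ^ 21 := pow_le_pow_left₀ hm0 hm9 21
    have h3 : 69120 / 2 ^ 85 * (m : ℝ) ^ 21 * f ^ 10 ≤
        69120 / 2 ^ 85 * (9 * f ^ 2) ^ 21 * f ^ 10 := by
      apply mul_le_mul_of_nonneg_right _ (by positivity)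
      exact mul_le_mul_of_nonneg_left h2 (by positivity)
    refine h3.trans ?_
    have h4 : 69120 / 2 ^ 85 * (9 * f ^ 2) ^ 21 * f ^ 10 = (69120 / 2 ^ 85 * 9 ^ 21) * f ^ 52 := by
      ring
    rw [h4]
    have h5 : (69120 / 2 ^ 85 * 9 ^ 21 : ℝ) ≤ 1 := by norm_num
    have h6 : (69120 / 2 ^ 85 * 9 ^ 21 : ℝ) * f ^ 52 ≤ 1 * f ^ 52 :=
      mul_le_mul_of_nonneg_right h5 (by positivity)
    linarith

open Classical in
/-- graphs without cliques of nearly maximum size -/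
theorem clique_main {V : Type} [Fintype V] (G : SimpleGraph V) [DecidableRel G.Adj]
    (D p : ℕ) (ε : ℝ) (hε0 : 0 < ε) (hε1 : ε ≤ 1) (hDε : (2 ^ 42 / ε ^ 2) ^ 52 ≤ (D : ℝ))
    (hD : ∀ v, G.degree v ≤ D)
    (hω : ∀ S : Finset V, (∀ x ∈ S, ∀ y ∈ S, x ≠ y → G.Adj x y) → (S.card : ℝ) ≤ (1 - ε) * D)
    (hp : (1 / 2 - ε ^ 2 / 2 ^ 44) * (D : ℝ) ≤ p) :
    TotLab G p (D + 2 * p - 1) := by
  obtain ⟨r, hr⟩ : ∃ r : ℝ, r = ε / 512 := ⟨_, rfl⟩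
  obtain ⟨e, he⟩ : ∃ e : ℝ, e = ε ^ 2 / 2 ^ 42 := ⟨_, rfl⟩
  have hr0 : 0 < r := by rw [hr]; positivity
  have hr1 : 512 * r ≤ 1 := by rw [hr]; linarith
  have he0 : 0 < e := by rw [he]; positivity
  have he1 : e ≤ 1 / 2 ^ 42 := by
    rw [he]
    apply div_le_div_of_nonneg_right _ (by positivity)
    nlinarith
  have hDe : 1 / e ^ 52 ≤ (D : ℝ) := by
    have : 1 / e ^ 52 = (2 ^ 42 / ε ^ 2) ^ 52 := by rw [he]; field_simp
    rw [this]; exact hDε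
  have hδ : r ^ 2 / 16 = 2 ^ 20 * e := by rw [hr, he]; ring
  have hDpos : 0 < D := by
    have : (0 : ℝ) < D := lt_of_lt_of_le (by positivity) hDe
    exact_mod_cast this
  have hD' : ∀ v, (G.neighborFinset v).card ≤ D := by
    intro v; rw [SimpleGraph.card_neighborFinset_eq_degree]; exact hD v
  obtain ⟨F, hF⟩ := exists_fam hr0 hr1 hDpos hD'
  obtain ⟨π, hM⟩ := exists_mrg (G := G) r D F
  have hω' : ∀ S : Finset V, (∀ x ∈ S, ∀ y ∈ S, x ≠ y → G.Adj x y) →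
      (S.card : ℝ) ≤ (1 - 512 * r) * D := by
    intro S hS
    have h1 : 1 - 512 * r = 1 - ε := by rw [hr]; ring
    rw [h1]
    exact hω S hS
  obtain ⟨q, m, n1, n2, n3, n4, n5⟩ := numer he0 he1 hDe
  refine tied_core G (GM G π) π (fun a b h => GM_hom hM h) ?_ D p q m (r ^ 2 / 16) e
    (by positivity) (by nlinarith) (by rw [hδ]; ring) hD ?_ ?_ ?_ n1 n2 n3 n4
    (by rw [hδ]; exact n5)
  · intro y
    have := hM.two y
    convert this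
  · intro v
    rw [← SimpleGraph.card_neighborFinset_eq_degree]
    exact card_M hr0 hr1 hDpos hD' hF hM hω' v
  · intro v
    exact AP_M hr0 hr1 hDpos hD' hF hM hω' v
  · have : ε ^ 2 / 2 ^ 44 = e / 4 := by rw [he]; ring
    rw [this] at hp
    linarith

end Pool.Agent.K1H33.HY
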